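import Pool.Agent.R623.C.Kill
import Pool.Agent.Results.MP_743c94_lc.Full

/-!
# The computable colouring
-/

set_option autoImplicit false

namespace Pool.Agent.R623.HTR

open Encodable
open Pool.Agent.Results.MP_743c94_lc.Full (elems primrec_elems elems_nodup pre pre_length
  pre_take)

/-! ### Primitive recursiveness -/

theorem primrec_wprod : Primrec₂ wprod := by
  have hx : Primrec₂ (xor : Bool → Bool → Bool) :=
    (Primrec.dom_finite fun q : Bool × Bool => xor q.1 q.2)
  have h1 : Primrec₂ fun (q : List Bool × List Bool) (b : Bool) => q.1.map (xor b) := by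
    refine Primrec.list_map (Primrec.fst.comp Primrec.fst) ?_
    exact hx.comp (Primrec.snd.comp Primrec.fst) Primrec.snd
  exact Primrec.list_flatMap (f := fun q : List Bool × List Bool => q.2) Primrec.snd h1

theorem primrec_ww : Primrec fun q : (List Bool × Bool × Bool) × ℕ =>
    ww q.1.1 q.1.2.1 q.1.2.2 q.2 := by
  have hx : Primrec₂ (xor : Bool → Bool → Bool) :=
    (Primrec.dom_finite fun q : Bool × Bool => xor q.1 q.2)
  have hl : Primrec fun q : (List Bool × Bool × Bool) × ℕ => q.1.1.length :=
    Primrec.list_length.comp (Primrec.fst.comp Primrec.fst)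
  have hd : Primrec fun q : (List Bool × Bool × Bool) × ℕ => decide (q.2 < q.1.1.length) :=
    (PrimrecRel.comp Primrec.nat_lt Primrec.snd hl).decide
  have hs1 : Primrec fun q : (List Bool × Bool × Bool) × ℕ => q.1.2.1 :=
    Primrec.fst.comp (Primrec.snd.comp Primrec.fst)
  have hs2 : Primrec fun q : (List Bool × Bool × Bool) × ℕ => q.1.2.2 :=
    Primrec.snd.comp (Primrec.snd.comp Primrec.fst)
  unfold ww
  refine Primrec.cond hd ?_ ?_
  · exact hx.comp hs1 ((Primrec.list_getD false).comp (Primrec.fst.comp Primrec.fst) Primrec.snd)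
  · exact hx.comp hs2 ((Primrec.list_getD false).comp (Primrec.fst.comp Primrec.fst)
      (Primrec.nat_sub.comp Primrec.snd hl))

/-- the four pairs of signs -/
def S4 : List (Bool × Bool) := [(false, false), (false, true), (true, false), (true, true)]

theorem forall_S4 {P : Bool → Bool → Prop} : (∀ s ∈ S4, P s.1 s.2) ↔ ∀ s1 s2, P s1 s2 := by
  unfold S4
  constructor
  · intro h s1 s2
    exact h (s1, s2) (by cases s1 <;> cases s2 <;> simp)
  · intro h s _
    exact h _ _

theorem primrec_kills : PrimrecRel Kills := by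
  have h1 : PrimrecRel fun (x : ℕ) (u : List Bool) => x < u.length :=
    PrimrecRel.comp Primrec.nat_lt Primrec.fst (Primrec.list_length.comp Primrec.snd)
  have h2 : PrimrecRel fun (u : List Bool) (F : List ℕ) => ∀ x ∈ F, x < u.length :=
    (PrimrecRel.forall_mem_list h1).comp Primrec.snd Primrec.fst
  have h3 : PrimrecRel fun (x : ℕ) (q : (Bool × Bool) × ℕ × List Bool × List ℕ) =>
      ww q.2.2.1 q.1.1 q.1.2 (q.2.1 + x) = true := by
    have ha : Primrec fun y : ℕ × (Bool × Bool) × ℕ × List Bool × List ℕ => y.2.2.2.1 :=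
      Primrec.fst.comp (Primrec.snd.comp (Primrec.snd.comp Primrec.snd))
    have hb : Primrec fun y : ℕ × (Bool × Bool) × ℕ × List Bool × List ℕ => y.2.1.1 :=
      Primrec.fst.comp (Primrec.fst.comp Primrec.snd)
    have hc : Primrec fun y : ℕ × (Bool × Bool) × ℕ × List Bool × List ℕ => y.2.1.2 :=
      Primrec.snd.comp (Primrec.fst.comp Primrec.snd)
    have hd : Primrec fun y : ℕ × (Bool × Bool) × ℕ × List Bool × List ℕ => y.2.2.1 + y.1 :=
      Primrec.nat_add.comp (Primrec.fst.comp (Primrec.snd.comp Primrec.snd)) Primrec.fst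
    have he : Primrec fun y : ℕ × (Bool × Bool) × ℕ × List Bool × List ℕ =>
        ww y.2.2.2.1 y.2.1.1 y.2.1.2 (y.2.2.1 + y.1) :=
      primrec_ww.comp (Primrec.pair (Primrec.pair ha (Primrec.pair hb hc)) hd)
    exact PrimrecRel.comp Primrec.eq he (Primrec.const true)
  have h4 : PrimrecRel fun (s : Bool × Bool) (q : ℕ × List Bool × List ℕ) =>
      ∃ x ∈ q.2.2, ww q.2.1 s.1 s.2 (q.1 + x) = true :=
    (PrimrecRel.exists_mem_list h3).comp (Primrec.snd.comp (Primrec.snd.comp Primrec.snd))
      Primrec.id
  have h5 : PrimrecRel fun (t : ℕ) (q : List Bool × List ℕ) =>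
      ∀ s ∈ S4, ∃ x ∈ q.2, ww q.1 s.1 s.2 (t + x) = true :=
    (PrimrecRel.forall_mem_list h4).comp (Primrec.const S4) Primrec.id
  have h6 : PrimrecRel fun (u : List Bool) (F : List ℕ) => ∀ t < u.length,
      ∀ s ∈ S4, ∃ x ∈ F, ww u s.1 s.2 (t + x) = true := by
    have h7 : PrimrecRel fun (n : ℕ) (q : List Bool × List ℕ) => ∀ t < n,
        ∀ s ∈ S4, ∃ x ∈ q.2, ww q.1 s.1 s.2 (t + x) = true :=
      ((PrimrecRel.forall_mem_list h5).comp (Primrec.list_range.comp Primrec.fst)
        Primrec.snd).of_eq (by simp)
    exact h7.comp (Primrec.list_length.comp Primrec.fst) Primrec.id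
  have h8 : PrimrecRel fun (u : List Bool) (_F : List ℕ) => 0 < u.length :=
    PrimrecRel.comp Primrec.nat_lt (Primrec.const 0) (Primrec.list_length.comp Primrec.fst)
  refine (PrimrecPred.and h8 (PrimrecPred.and h2 h6)).of_eq fun q => ?_
  unfold Kills
  refine and_congr_right fun _ => and_congr_right fun _ => ?_
  refine forall_congr' fun t => forall_congr' fun _ => ?_
  exact forall_S4 (P := fun s1 s2 => ∃ x ∈ q.2, ww q.1 s1 s2 (t + x) = true)

/-- all words of length `t` -/
def wrds : ℕ → List (List Bool)
  | 0 => [[]]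
  | t + 1 => (wrds t).flatMap fun τ => [τ ++ [false], τ ++ [true]]

theorem primrec_wrds : Primrec wrds := by
  have h1 : Primrec₂ fun (q : ℕ × List (List Bool)) (τ : List Bool) =>
      [τ ++ [false], τ ++ [true]] := by
    refine Primrec.list_cons.comp (Primrec.list_append.comp Primrec.snd (Primrec.const _))
      (Primrec.list_cons.comp (Primrec.list_append.comp Primrec.snd (Primrec.const _))
        (Primrec.const _))
  have h2 : Primrec₂ fun (_ : ℕ) (q : ℕ × List (List Bool)) =>
      q.2.flatMap fun τ => [τ ++ [false], τ ++ [true]] :=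
    (Primrec.list_flatMap (f := fun q : ℕ × List (List Bool) => q.2) Primrec.snd h1).comp
      Primrec.snd
  refine (Primrec.nat_rec (f := fun _ : ℕ => [([] : List Bool)]) (g := fun (_ : ℕ)
    (q : ℕ × List (List Bool)) => q.2.flatMap fun τ => [τ ++ [false], τ ++ [true]])
    (Primrec.const _) h2).comp (Primrec.const 0) Primrec.id |>.of_eq fun n => ?_
  induction n with
  | zero => rfl
  | succ n ih =>
    simp only [wrds]
    rw [← ih]
    rfl

/-- the word of a requirement -/
def sg (i : ℕ) : List Bool := (decode (α := List Bool) i.unpair.2).getD []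

theorem primrec_sg : Primrec sg :=
  Primrec.option_getD.comp (Primrec.decode.comp (Primrec.snd.comp Primrec.unpair))
    (Primrec.const [])

/-- `τ` extends the word of the requirement -/
def Ext (i : ℕ) (τ : List Bool) : Prop := τ.take (sg i).length = sg i

theorem primrec_ext : PrimrecRel Ext := by
  have h1 : Primrec fun q : ℕ × List Bool => (sg q.1).length :=
    Primrec.list_length.comp (primrec_sg.comp Primrec.fst)
  have h2 : Primrec fun q : ℕ × List Bool => q.2.take (sg q.1).length :=
    Primrec.list_take.comp h1 Primrec.snd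
  have h3 : Primrec fun q : ℕ × List Bool => sg q.1 := primrec_sg.comp Primrec.fst
  have h4 : PrimrecPred fun q : ℕ × List Bool => q.2.take (sg q.1).length = sg q.1 :=
    PrimrecRel.comp Primrec.eq h2 h3
  exact h4

/-- `τ` extends the word of the requirement and its elements are killed -/
def ExtK (i : ℕ) (u : List Bool) (τ : List Bool) : Prop :=
  Ext i τ ∧ Kills u (elems τ i.unpair.1)

theorem primrec_extK : PrimrecRel fun (τ : List Bool) (q : ℕ × List Bool) => ExtK q.1 q.2 τ := by
  refine PrimrecPred.and ?_ ?_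
  · exact primrec_ext.comp (Primrec.fst.comp Primrec.snd) Primrec.fst
  · exact primrec_kills.comp (Primrec.snd.comp Primrec.snd)
      (primrec_elems.comp Primrec.fst (Primrec.fst.comp (Primrec.unpair.comp
        (Primrec.fst.comp Primrec.snd))))

open Classical in
/-- the number of words of length `t` extending the word of `i` -/
@[irreducible] noncomputable def cntE (i t : ℕ) : ℕ := ((wrds t).filter fun τ => Ext i τ).length

open Classical in
/-- the number of those which are killed by `u` -/
@[irreducible] noncomputable def cntK (i t : ℕ) (u : List Bool) : ℕ :=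
  ((wrds t).filter fun τ => ExtK i u τ).length

theorem primrec_cntE : Primrec fun q : ℕ × ℕ => cntE q.1 q.2 := by
  classical
  have h1 : PrimrecRel fun (τ : List Bool) (i : ℕ) => Ext i τ :=
    primrec_ext.comp Primrec.snd Primrec.fst
  have h2 := PrimrecRel.listFilter h1
  have h5 : Primrec fun q : ℕ × ℕ => wrds q.2 := primrec_wrds.comp Primrec.snd
  have h6 : Primrec fun q : ℕ × ℕ => q.1 := Primrec.fst
  have h4 := h2.comp h5 h6
  have h7 := Primrec.list_length.comp h4
  refine Primrec.of_eq h7 ?_
  intro q
  unfold cntE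
  rfl

theorem primrec_cntK : Primrec fun q : (ℕ × ℕ) × List Bool => cntK q.1.1 q.1.2 q.2 := by
  classical
  have h2 := PrimrecRel.listFilter primrec_extK
  have h5 : Primrec fun q : (ℕ × ℕ) × List Bool => (q.1.1, q.2) :=
    Primrec.pair (Primrec.fst.comp Primrec.fst) Primrec.snd
  have h6 : Primrec fun q : (ℕ × ℕ) × List Bool => wrds q.1.2 :=
    primrec_wrds.comp (Primrec.snd.comp Primrec.fst)
  have h4 := h2.comp h6 h5
  have h7 := Primrec.list_length.comp h4
  refine Primrec.of_eq h7 ?_
  intro q
  unfold cntK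
  rfl

/-- the word coded by an answer -/
def vc (p : ℕ) : List Bool := (decode (α := List Bool) p.unpair.2).getD []

theorem primrec_vc : Primrec vc := primrec_sg

/-- `p = ⟨t, v⟩` is a valid answer for the requirement `i` and the word `u`. -/
@[irreducible] def QQ (i : ℕ) (u : List Bool) (p : ℕ) : Prop :=
  3 * cntE i p.unpair.1 < 8 * cntK i p.unpair.1 (wprod u (vc p))

theorem QQ_iff {i : ℕ} {u : List Bool} {p : ℕ} :
    QQ i u p ↔ 3 * cntE i p.unpair.1 < 8 * cntK i p.unpair.1 (wprod u (vc p)) := by
  unfold QQ
  exact Iff.rfl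

theorem primrec_QQ : PrimrecRel fun (p : ℕ) (q : ℕ × List Bool) => QQ q.1 q.2 p := by
  have h1 : Primrec fun y : ℕ × ℕ × List Bool => y.2.1 := Primrec.fst.comp Primrec.snd
  have h2 : Primrec fun y : ℕ × ℕ × List Bool => y.1.unpair.1 :=
    Primrec.fst.comp (Primrec.unpair.comp Primrec.fst)
  have h3 : Primrec fun y : ℕ × ℕ × List Bool => wprod y.2.2 (vc y.1) :=
    primrec_wprod.comp (Primrec.snd.comp Primrec.snd) (primrec_vc.comp Primrec.fst)
  have h4 : Primrec fun y : ℕ × ℕ × List Bool => 3 * cntE y.2.1 y.1.unpair.1 :=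
    Primrec.nat_mul.comp (Primrec.const 3) (primrec_cntE.comp (Primrec.pair h1 h2))
  have h5 : Primrec fun y : ℕ × ℕ × List Bool =>
      8 * cntK y.2.1 y.1.unpair.1 (wprod y.2.2 (vc y.1)) :=
    Primrec.nat_mul.comp (Primrec.const 8) (primrec_cntK.comp (Primrec.pair
      (Primrec.pair h1 h2) h3))
  have h6 : PrimrecPred fun y : ℕ × ℕ × List Bool => 3 * cntE y.2.1 y.1.unpair.1 <
      8 * cntK y.2.1 y.1.unpair.1 (wprod y.2.2 (vc y.1)) := PrimrecRel.comp Primrec.nat_lt h4 h5
  exact h6.of_eq fun y => QQ_iff.symm

open Classical in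
/-- the action of the requirement `i` on the word `u` at stage `s` -/
@[irreducible] noncomputable def gg (s : ℕ) (u : List Bool) (i : ℕ) : List Bool :=
  ((((List.range s).filter fun p => QQ i u p).head?).map fun p => wprod u (vc p)).getD u

theorem primrec_gg : Primrec fun q : ℕ × List Bool × ℕ => gg q.1 q.2.1 q.2.2 := by
  classical
  have h1 := PrimrecRel.listFilter primrec_QQ
  have h4 : Primrec fun q : ℕ × List Bool × ℕ => (q.2.2, q.2.1) :=
    Primrec.pair (Primrec.snd.comp Primrec.snd) (Primrec.fst.comp Primrec.snd)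
  have h5 : Primrec fun q : ℕ × List Bool × ℕ => List.range q.1 :=
    Primrec.list_range.comp Primrec.fst
  have h2 := h1.comp h5 h4
  have h8 := Primrec.list_head?.comp h2
  have h6 : Primrec₂ fun (q : ℕ × List Bool × ℕ) (p : ℕ) => wprod q.2.1 (vc p) :=
    primrec_wprod.comp (Primrec.fst.comp (Primrec.snd.comp Primrec.fst))
      (primrec_vc.comp Primrec.snd)
  have h7 := Primrec.option_map h8 h6
  have h9 : Primrec fun q : ℕ × List Bool × ℕ => q.2.1 := Primrec.fst.comp Primrec.snd
  have h3 := Primrec.option_getD.comp h7 h9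
  refine Primrec.of_eq h3 ?_
  intro q
  unfold gg
  rfl

/-- the word after the first `i` requirements at stage `s` -/
@[irreducible] noncomputable def UU (i s : ℕ) : List Bool := (List.range i).foldl (gg s) [false]

theorem primrec_UU : Primrec₂ UU := by
  have h1 : Primrec₂ fun (q : ℕ × ℕ) (r : List Bool × ℕ) => gg q.2 r.1 r.2 :=
    primrec_gg.comp (Primrec.pair (Primrec.snd.comp Primrec.fst) Primrec.snd)
  have h2 : Primrec fun q : ℕ × ℕ => List.range q.1 := Primrec.list_range.comp Primrec.fst
  have h4 : Primrec fun _ : ℕ × ℕ => [false] := Primrec.const _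
  have h3 := Primrec.list_foldl h2 h4 h1
  refine Primrec.of_eq h3 ?_
  intro q
  unfold UU
  rfl

/-- the concatenation of the first `n` words -/
@[irreducible] noncomputable def CC (n : ℕ) : List Bool := (List.range n).flatMap fun s => UU s s

theorem primrec_CC : Primrec CC := by
  have h1 : Primrec₂ fun (_ : ℕ) (s : ℕ) => UU s s := primrec_UU.comp Primrec.snd Primrec.snd
  have h2 := Primrec.list_flatMap Primrec.list_range h1
  refine Primrec.of_eq h2 ?_
  intro q
  unfold CC
  rfl

/-- **The colouring.** -/
@[irreducible] noncomputable def colr (x : ℕ) : Bool := (CC (x + 1)).getD x false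

theorem primrec_colr : Primrec colr := by
  have h1 : Primrec fun x : ℕ => CC (x + 1) := primrec_CC.comp Primrec.succ
  have h2 := (Primrec.list_getD false).comp h1 Primrec.id
  refine Primrec.of_eq h2 ?_
  intro q
  unfold colr
  rfl

/-! ### The structure of the colouring -/

theorem gg_found {s : ℕ} {u : List Bool} {i p : ℕ} (hp : QQ i u p) (hmin : ∀ p' < p, ¬ QQ i u p')
    (hs : p < s) : gg s u i = wprod u (vc p) := by
  classical
  unfold gg
  obtain ⟨k, rfl⟩ := Nat.exists_eq_add_of_le (show p + 1 ≤ s from hs)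
  have h1 : (List.range p).filter (fun p => decide (QQ i u p)) = [] := by
    rw [List.filter_eq_nil_iff]
    intro a ha
    rw [List.mem_range] at ha
    simpa using hmin a ha
  rw [List.range_add, List.range_succ, List.filter_append, List.filter_append, h1]
  simp [hp]

theorem gg_none {s : ℕ} {u : List Bool} {i : ℕ} (h : ∀ p, ¬ QQ i u p) : gg s u i = u := by
  classical
  unfold gg
  have h1 : (List.range s).filter (fun p => decide (QQ i u p)) = [] := by
    rw [List.filter_eq_nil_iff]
    intro a _
    simpa using h a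
  rw [h1]
  rfl

theorem gg_cases (s : ℕ) (u : List Bool) (i : ℕ) :
    gg s u i = u ∨ ∃ p, QQ i u p ∧ gg s u i = wprod u (vc p) := by
  classical
  unfold gg
  cases h : ((List.range s).filter (fun p => decide (QQ i u p))).head? with
  | none => left; rfl
  | some p =>
    right
    refine ⟨p, ?_, rfl⟩
    have h1 := List.mem_of_mem_head? h
    rw [List.mem_filter] at h1
    simpa using h1.2

theorem cntK_pos {i t : ℕ} {u : List Bool} (h : 0 < cntK i t u) : 0 < u.length := by
  classical
  unfold cntK at h
  obtain ⟨τ, hτ⟩ := List.exists_mem_of_length_pos h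
  rw [List.mem_filter] at hτ
  have h2 : ExtK i u τ := by simpa using hτ.2
  exact h2.2.1

theorem QQ_pos {i : ℕ} {u : List Bool} {p : ℕ} (h : QQ i u p) : 0 < (wprod u (vc p)).length := by
  rw [QQ_iff] at h
  exact cntK_pos (i := i) (t := p.unpair.1) (by omega)

/-- the word `w` is composed of blocks `± u` -/
structure BW (u w : List Bool) : Prop where
  pos : 0 < u.length
  pos' : 0 < w.length
  dvd : u.length ∣ w.length
  blk : Blk u (fun x => w.getD x false) w.length

theorem BW.refl {u : List Bool} (h : 0 < u.length) : BW u u := by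
  refine ⟨h, h, dvd_rfl, fun x hx => ?_⟩
  beta_reduce
  rw [Nat.div_eq_of_lt hx, Nat.mod_eq_of_lt hx, zero_mul]

theorem BW.wprod {u v : List Bool} (h : 0 < (wprod u v).length) : BW u (wprod u v) := by
  have hl := length_wprod u v
  rw [hl] at h
  have hu : 0 < u.length := Nat.pos_of_mul_pos_left h
  refine ⟨hu, by rw [hl]; exact h, by rw [hl]; exact Dvd.intro_left _ rfl, fun x hx => ?_⟩
  rw [hl] at hx
  beta_reduce
  have h1 : x / u.length * u.length ≤ x := Nat.div_mul_le_self _ _
  rw [getD_wprod hu hx, getD_wprod hu (by omega), Nat.mul_div_cancel _ hu, Nat.mul_mod_left]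
  generalize v.getD (x / u.length) false = a
  generalize u.getD (x % u.length) false = b
  generalize u.getD 0 false = c
  cases a <;> cases b <;> cases c <;> rfl

theorem BW.trans {u v w : List Bool} (h1 : BW u v) (h2 : BW v w) : BW u w := by
  refine ⟨h1.pos, h2.pos', h1.dvd.trans h2.dvd, fun x hx => ?_⟩
  beta_reduce
  set ℓ := u.length with hℓ
  set m := v.length with hm
  have hℓ0 : 0 < ℓ := h1.pos
  have hm0 : 0 < m := h2.pos
  obtain ⟨k, hk⟩ := h1.dvd
  rw [← hm, ← hℓ] at hk
  set y := x / ℓ * ℓ with hy
  have hyx : y ≤ x := Nat.div_mul_le_self _ _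
  have hxy : x = y + x % ℓ := by rw [hy, mul_comm]; exact (Nat.div_add_mod x ℓ).symm
  have hxl : x % ℓ < ℓ := Nat.mod_lt _ hℓ0
  -- the quotients by m
  have hq : y / m = x / m := by
    have e1 : x / m = x / ℓ / k := by rw [hk, Nat.div_div_eq_div_mul]
    have e2 : y / m = y / ℓ / k := by rw [hk, Nat.div_div_eq_div_mul]
    have e3 : y / ℓ = x / ℓ := by rw [hy, Nat.mul_div_cancel _ hℓ0]
    rw [e1, e2, e3]
  have hb1 := h2.blk x hx
  have hb2 := h2.blk y (by omega)
  beta_reduce at hb1 hb2
  rw [← hm] at hb1 hb2
  rw [hq] at hb2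
  have hb3 := h1.blk (x % m) (Nat.mod_lt _ hm0)
  beta_reduce at hb3
  rw [← hℓ] at hb3
  have e4 : x % m % ℓ = x % ℓ := Nat.mod_mod_of_dvd _ (Dvd.intro _ hk.symm)
  have e5 : x % m / ℓ * ℓ = y % m := by
    have e6 := Nat.div_add_mod x m
    have e7 := Nat.div_add_mod y m
    rw [hq] at e7
    have e8 := Nat.div_add_mod (x % m) ℓ
    rw [e4] at e8
    have e9 : ℓ * (x % m / ℓ) = x % m / ℓ * ℓ := mul_comm _ _
    omega
  rw [e4, e5] at hb3
  revert hb1 hb2 hb3
  generalize w.getD x false = a1
  generalize w.getD (x / m * m) false = a2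
  generalize w.getD y false = a3
  generalize v.getD (x % m) false = a4
  generalize v.getD (y % m) false = a5
  generalize v.getD 0 false = a6
  generalize u.getD (x % ℓ) false = a7
  generalize u.getD 0 false = a8
  cases a1 <;> cases a2 <;> cases a3 <;> cases a4 <;> cases a5 <;> cases a6 <;> cases a7 <;>
    cases a8 <;> decide

theorem BW.append {u v w : List Bool} (h1 : BW u v) (h2 : BW u w) : BW u (v ++ w) := by
  obtain ⟨k, hk⟩ := h1.dvd
  have hℓ0 : 0 < u.length := h1.pos
  refine ⟨h1.pos, by rw [List.length_append]; have := h1.pos'; omega, by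
    rw [List.length_append]; exact dvd_add h1.dvd h2.dvd, fun x hx => ?_⟩
  rw [List.length_append] at hx
  beta_reduce
  rcases Nat.lt_or_ge x v.length with h | h
  · have h3 : x / u.length * u.length ≤ x := Nat.div_mul_le_self _ _
    rw [List.getD_append _ _ _ _ h, List.getD_append _ _ _ _ (by omega)]
    exact h1.blk x h
  · obtain ⟨z, rfl⟩ := Nat.exists_eq_add_of_le h
    have e1 : (v.length + z) / u.length * u.length = v.length + z / u.length * u.length := by
      rw [hk, Nat.mul_add_div hℓ0, add_mul, mul_comm]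
    have e2 : (v.length + z) % u.length = z % u.length := by
      rw [hk, Nat.mul_add_mod]
    rw [e1, e2, List.getD_append_right _ _ _ _ (by omega),
      List.getD_append_right _ _ _ _ (by omega), Nat.add_sub_cancel_left, Nat.add_sub_cancel_left]
    exact h2.blk z (by omega)

theorem UU_zero (s : ℕ) : UU 0 s = [false] := by
  unfold UU
  rfl

theorem UU_succ (i s : ℕ) : UU (i + 1) s = gg s (UU i s) i := by
  unfold UU
  rw [List.range_succ, List.foldl_append]
  rfl

theorem UU_pos (i s : ℕ) : 0 < (UU i s).length := by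
  induction i with
  | zero => rw [UU_zero]; simp
  | succ i ih =>
    rw [UU_succ]
    rcases gg_cases s (UU i s) i with h | ⟨p, hp, h⟩
    · rw [h]; exact ih
    · rw [h]; exact QQ_pos hp

theorem UU_step (i s : ℕ) : BW (UU i s) (UU (i + 1) s) := by
  rw [UU_succ]
  rcases gg_cases s (UU i s) i with h | ⟨p, hp, h⟩
  · rw [h]; exact BW.refl (UU_pos i s)
  · rw [h]; exact BW.wprod (QQ_pos hp)

theorem UU_le {i j : ℕ} (h : i ≤ j) (s : ℕ) : BW (UU i s) (UU j s) := by
  induction h with
  | refl => exact BW.refl (UU_pos i s)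
  | step _ ih => exact ih.trans (UU_step _ s)

/-- every requirement settles -/
theorem UU_stable (i : ℕ) : ∃ u s0, ∀ s, s0 ≤ s → UU i s = u := by
  classical
  induction i with
  | zero => exact ⟨[false], 0, fun s _ => UU_zero s⟩
  | succ i ih =>
    obtain ⟨u, s0, h⟩ := ih
    by_cases hp : ∃ p, QQ i u p
    · refine ⟨wprod u (vc (Nat.find hp)), max s0 (Nat.find hp + 1), fun s hs => ?_⟩
      rw [UU_succ, h s (by omega)]
      exact gg_found (Nat.find_spec hp) (fun p' hp' => Nat.find_min hp hp') (by omega)
    · push Not at hp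
      refine ⟨u, s0, fun s hs => ?_⟩
      rw [UU_succ, h s hs]
      exact gg_none hp

theorem CC_succ (n : ℕ) : CC (n + 1) = CC n ++ UU n n := by
  unfold CC
  rw [List.range_succ, List.flatMap_append]
  simp

theorem length_CC (n : ℕ) : n ≤ (CC n).length := by
  induction n with
  | zero => exact Nat.zero_le _
  | succ n ih =>
    rw [CC_succ, List.length_append]
    have := UU_pos n n
    omega

theorem CC_add (n k : ℕ) : CC (n + k) = CC n ++ (List.range k).flatMap
    fun j => UU (n + j) (n + j) := by
  unfold CC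
  rw [List.range_add, List.flatMap_append, List.flatMap_map]

theorem colr_eq {x n : ℕ} (h : x < (CC n).length) : colr x = (CC n).getD x false := by
  unfold colr
  have h1 := length_CC (x + 1)
  rcases le_total n (x + 1) with h2 | h2
  · obtain ⟨k, hk⟩ := Nat.exists_eq_add_of_le h2
    rw [hk, CC_add n k, List.getD_append _ _ _ _ h]
  · obtain ⟨k, hk⟩ := Nat.exists_eq_add_of_le h2
    rw [hk, CC_add (x + 1) k, List.getD_append _ _ _ _ (by omega)]

/-- the tail of the colouring is composed of blocks -/
theorem colr_tail {i s0 : ℕ} {u : List Bool} (h : ∀ s, s0 ≤ s → UU i s = u) :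
    ∃ N, ∀ n, Blk u (fun x => colr (N + x)) n := by
  set s1 := max s0 i with hs1
  refine ⟨(CC s1).length, fun n => ?_⟩
  have key : ∀ k, BW u ((List.range (k + 1)).flatMap fun j => UU (s1 + j) (s1 + j)) := by
    intro k
    have hb : ∀ j, BW u (UU (s1 + j) (s1 + j)) := by
      intro j
      have h1 := UU_le (show i ≤ s1 + j by omega) (s1 + j)
      rw [h (s1 + j) (by omega)] at h1
      exact h1
    induction k with
    | zero =>
      have h2 := hb 0
      simpa using h2
    | succ k ih =>
      rw [List.range_succ, List.flatMap_append]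
      refine ih.append ?_
      simpa using hb (k + 1)
  intro x hx
  beta_reduce
  have hk := key n
  set T := (List.range (n + 1)).flatMap fun j => UU (s1 + j) (s1 + j) with hT
  have hCC : CC (s1 + (n + 1)) = CC s1 ++ T := CC_add _ _
  have hTl : n < T.length := by
    have : ∀ m, m ≤ ((List.range m).flatMap fun j => UU (s1 + j) (s1 + j)).length := by
      intro m
      induction m with
      | zero => simp
      | succ m ih =>
        rw [List.range_succ, List.flatMap_append, List.length_append]
        have := UU_pos (s1 + m) (s1 + m)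
        simp only [List.flatMap_cons, List.flatMap_nil, List.append_nil]
        omega
    have h5 := this (n + 1)
    rw [← hT] at h5
    omega
  have hval : ∀ z < T.length, colr ((CC s1).length + z) = T.getD z false := by
    intro z hz
    rw [colr_eq (n := s1 + (n + 1)) (by rw [hCC, List.length_append]; omega), hCC,
      List.getD_append_right _ _ _ _ (by omega), Nat.add_sub_cancel_left]
  have h3 : x / u.length * u.length ≤ x := Nat.div_mul_le_self _ _
  rw [hval x (by omega), hval _ (by omega)]
  exact hk.blk x (by omega)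

/-- **The dichotomy for the requirement `i`**: either the tail of the colouring is composed of
blocks `± w` where `w` kills enough of the words, or no answer exists for some word `u`. -/
theorem dichotomy (i : ℕ) :
    (∃ (w : List Bool) (t N : ℕ), 3 * cntE i t < 8 * cntK i t w ∧
      ∀ n, Blk w (fun x => colr (N + x)) n) ∨
    ∃ u : List Bool, 0 < u.length ∧ ∀ p, ¬ QQ i u p := by
  classical
  obtain ⟨u, s0, h⟩ := UU_stable i
  by_cases hp : ∃ p, QQ i u p
  · left
    have h1 : ∀ s, max s0 (Nat.find hp + 1) ≤ s → UU (i + 1) s = wprod u (vc (Nat.find hp)) := by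
      intro s hs
      rw [UU_succ, h s (by omega)]
      exact gg_found (Nat.find_spec hp) (fun p' hp' => Nat.find_min hp hp') (by omega)
    obtain ⟨N, hN⟩ := colr_tail h1
    exact ⟨_, _, N, QQ_iff.1 (Nat.find_spec hp), hN⟩
  · right
    push Not at hp
    refine ⟨u, ?_, hp⟩
    rw [← h s0 le_rfl]
    exact UU_pos i s0

end Pool.Agent.R623.HTR
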