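import Pool.Agent.Helper446.Oracle

/-!
# Predicates decidable relative to an oracle
-/

set_option autoImplicit false

namespace Pool.Agent.R623.Dec

open Encodable Pool.Agent.Helper446 Pool.Agent.Helper446.Defs Pool.Agent.Helper446.RE
  Pool.Agent.Helper446.Oracle

variable {α β γ : Type*} [Primcodable α] [Primcodable β] [Primcodable γ]

/-- `S` is decidable with the oracle `A`. -/
def DecIn (A : Set ℕ) (S : α → Prop) : Prop := REIn A S ∧ REIn A fun a => ¬ S a

/-- `A` is computable from `B`. -/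
def Le (A B : Set ℕ) : Prop := DecIn B (· ∈ A)

variable {A B C : Set ℕ}

theorem DecIn.of_eq {S T : α → Prop} (h : DecIn A S) (hST : ∀ a, S a ↔ T a) : DecIn A T :=
  ⟨h.1.of_eq hST, h.2.of_eq fun a => not_congr (hST a)⟩

theorem DecIn.and {S T : α → Prop} (hS : DecIn A S) (hT : DecIn A T) :
    DecIn A fun a => S a ∧ T a :=
  ⟨hS.1.and hT.1, (hS.2.or hT.2).of_eq fun _ => by tauto⟩

theorem DecIn.or {S T : α → Prop} (hS : DecIn A S) (hT : DecIn A T) :
    DecIn A fun a => S a ∨ T a :=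
  ⟨hS.1.or hT.1, (hS.2.and hT.2).of_eq fun _ => by tauto⟩

theorem DecIn.not {S : α → Prop} (hS : DecIn A S) : DecIn A fun a => ¬ S a :=
  ⟨hS.2, hS.1.of_eq fun _ => not_not.symm⟩

theorem DecIn.imp {S T : α → Prop} (hS : DecIn A S) (hT : DecIn A T) :
    DecIn A fun a => S a → T a :=
  (hS.not.or hT).of_eq fun _ => by tauto

theorem DecIn.comp {S : β → Prop} (h : DecIn A S) {f : α → β} (hf : Computable f) :
    DecIn A fun a => S (f a) := ⟨h.1.comp hf, h.2.comp hf⟩

theorem DecIn.all_lt {S : α → ℕ → Prop} (hS : DecIn A fun x : α × ℕ => S x.1 x.2) {f : α → ℕ}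
    (hf : Computable f) : DecIn A fun a => ∀ i < f a, S a i := by
  refine ⟨hS.1.all_lt hf, ?_⟩
  have h1 : REIn A fun a => ∃ i, i < f a ∧ ¬ S a i := by
    refine REIn.ex (S := fun a i => i < f a ∧ ¬ S a i) ?_
    refine REIn.and (REIn.of_re (RE.lt (by fun_prop) (by fun_prop))) hS.2
  refine h1.of_eq fun a => ?_
  push Not
  rfl

theorem DecIn.all_mem {S : α → β → Prop} (hS : DecIn A fun x : α × β => S x.1 x.2)
    {l : α → List β} (hl : Computable l) : DecIn A fun a => ∀ b ∈ l a, S a b := by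
  refine ⟨hS.1.all_mem hl, ?_⟩
  have h1 : REIn A fun a => ∃ b, b ∈ l a ∧ ¬ S a b := by
    refine REIn.ex (S := fun a b => b ∈ l a ∧ ¬ S a b) ?_
    refine REIn.and (REIn.of_re (RE.mem_list (by fun_prop) (by fun_prop))) hS.2
  refine h1.of_eq fun a => ?_
  push Not
  rfl

theorem DecIn.of_cp {S : α → Prop} (h : ComputablePred S) : DecIn A S :=
  ⟨REIn.of_re h.to_re, REIn.of_re h.not.to_re⟩

theorem DecIn.eq {f g : α → β} (hf : Computable f) (hg : Computable g) :
    DecIn A fun a => f a = g a :=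
  ⟨REIn.of_re (RE.eq hf hg), REIn.of_re (RE.ne hf hg)⟩

theorem DecIn.lt {f g : α → ℕ} (hf : Computable f) (hg : Computable g) :
    DecIn A fun a => f a < g a := DecIn.of_cp (RE.cp_lt hf hg)

theorem DecIn.mem {f : α → ℕ} (hf : Computable f) : DecIn A fun a => f a ∈ A :=
  ⟨REIn.mem hf, REIn.not_mem hf⟩

theorem REIn.trans (hAB : Le A B) {S : α → Prop} (h : REIn A S) : REIn B S := by
  obtain ⟨R, hR, h1⟩ := h
  have h2 : REIn B fun a => ∃ c : List ℕ × List ℕ, R a c ∧ (∀ x ∈ c.1, x ∈ A) ∧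
      ∀ x ∈ c.2, x ∉ A := by
    refine REIn.ex (S := fun a (c : List ℕ × List ℕ) => R a c ∧ (∀ x ∈ c.1, x ∈ A) ∧
      ∀ x ∈ c.2, x ∉ A) ?_
    refine REIn.and (REIn.of_re hR) (REIn.and ?_ ?_)
    · exact REIn.all_mem (S := fun _ x => x ∈ A) (hAB.1.comp (by fun_prop)) (by fun_prop)
    · exact REIn.all_mem (S := fun _ x => x ∉ A) (hAB.2.comp (by fun_prop)) (by fun_prop)
  exact h2.of_eq fun a => (h1 a).symm

theorem DecIn.trans (hAB : Le A B) {S : α → Prop} (h : DecIn A S) : DecIn B S :=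
  ⟨REIn.trans hAB h.1, REIn.trans hAB h.2⟩

theorem Le.trans (h1 : Le A B) (h2 : Le B C) : Le A C := DecIn.trans h2 h1

theorem Le.refl (A : Set ℕ) : Le A A := DecIn.mem Computable.id

theorem le_iff_turing : Le A B ↔ TuringReducible (chi A) (chi B) := turingReducible_iff.symm

/-- the graph of a function is decidable when it is enumerable -/
theorem dec_graph {f : α → β} (h : REIn A fun p : α × β => f p.1 = p.2) :
    DecIn A fun p : α × β => f p.1 = p.2 := by
  refine ⟨h, ?_⟩
  have h1 : REIn A fun p : α × β => ∃ b : β, f p.1 = b ∧ b ≠ p.2 := by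
    refine REIn.ex (S := fun (p : α × β) (b : β) => f p.1 = b ∧ b ≠ p.2) ?_
    exact REIn.and (h.comp (f := fun x : (α × β) × β => (x.1.1, x.2)) (by fun_prop))
      (REIn.of_re (RE.ne (by fun_prop) (by fun_prop)))
  refine h1.of_eq fun p => ?_
  constructor
  · rintro ⟨b, rfl, hb⟩
    exact hb
  · intro hp
    exact ⟨_, rfl, hp⟩

/-- comparing two values -/
theorem dec_eq_val {f : α → β} (h : REIn A fun p : α × β => f p.1 = p.2) {g k : γ → α}
    (hg : Computable g) (hk : Computable k) : DecIn A fun c => f (g c) = f (k c) := by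
  constructor
  · have h1 : REIn A fun c : γ => ∃ b : β, f (g c) = b ∧ f (k c) = b := by
      refine REIn.ex (S := fun (c : γ) (b : β) => f (g c) = b ∧ f (k c) = b) ?_
      exact REIn.and (h.comp (f := fun x : γ × β => (g x.1, x.2)) (by fun_prop))
        (h.comp (f := fun x : γ × β => (k x.1, x.2)) (by fun_prop))
    refine h1.of_eq fun c => ?_
    constructor
    · rintro ⟨b, h2, h3⟩
      rw [h2, h3]
    · intro h2
      exact ⟨_, h2, rfl⟩
  · have h1 : REIn A fun c : γ => ∃ b : β, f (g c) = b ∧ ∃ b', f (k c) = b' ∧ b ≠ b' := by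
      refine REIn.ex (S := fun (c : γ) (b : β) => f (g c) = b ∧ ∃ b', f (k c) = b' ∧ b ≠ b') ?_
      refine REIn.and (h.comp (f := fun x : γ × β => (g x.1, x.2)) (by fun_prop)) ?_
      refine REIn.ex (S := fun (x : γ × β) (b' : β) => f (k x.1) = b' ∧ x.2 ≠ b') ?_
      exact REIn.and (h.comp (f := fun x : (γ × β) × β => (k x.1.1, x.2)) (by fun_prop))
        (REIn.of_re (RE.ne (by fun_prop) (by fun_prop)))
    refine h1.of_eq fun c => ?_
    constructor
    · rintro ⟨b, h2, b', h3, h4⟩ h5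
      have h5 : f (g c) = f (k c) := h5
      rw [h2, h3] at h5
      exact h4 h5
    · intro h2
      exact ⟨_, rfl, _, rfl, h2⟩

end Pool.Agent.R623.Dec
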