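import Pool.Agent.R623.C.Tur

/-!
# Almost every sequence computes a function avoiding a given partial function
-/

set_option autoImplicit false

namespace Pool.Agent.R623.HTR

open Encodable MeasureTheory Set
open Pool.Agent.Results.MP_743c94_lc.Full (pre pre_length pre_take)
open scoped ENNReal

theorem coin_eq_le (ψ : ℕ →. ℕ) (e n : ℕ) :
    coin {X | encode (pre X n) ∈ ψ e} ≤ (2⁻¹ : ℝ≥0∞) ^ n := by
  rcases Set.eq_empty_or_nonempty {X : ℕ → Bool | encode (pre X n) ∈ ψ e} with h | ⟨X0, h0⟩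
  · rw [h, measure_empty]
    exact zero_le
  · have hsub : {X : ℕ → Bool | encode (pre X n) ∈ ψ e} ⊆ cyl (pre X0 n) := by
      intro X hX
      have h1 : encode (pre X n) = encode (pre X0 n) := Part.mem_unique hX h0
      have h2 := encode_injective h1
      show pre X (pre X0 n).length = pre X0 n
      rw [pre_length]
      exact h2
    refine (measure_mono hsub).trans ?_
    rw [coin_cyl, pre_length]

theorem ae_avoid (ψ : ℕ →. ℕ) : ∀ᵐ X ∂coin, ∃ c, ∀ e, encode (pre X (e + c)) ∉ ψ e := by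
  rw [ae_iff]
  have h1 : ∀ c, coin {X | ¬ ∃ c, ∀ e, encode (pre X (e + c)) ∉ ψ e} ≤ 2 * (2⁻¹ : ℝ≥0∞) ^ c := by
    intro c
    have hsub : {X : ℕ → Bool | ¬ ∃ c, ∀ e, encode (pre X (e + c)) ∉ ψ e} ⊆
        ⋃ e, {X | encode (pre X (e + c)) ∈ ψ e} := by
      intro X hX
      rw [mem_ofPred_eq] at hX
      push Not at hX
      obtain ⟨e, he⟩ := hX c
      rw [mem_iUnion]
      exact ⟨e, he⟩
    calc coin {X | ¬ ∃ c, ∀ e, encode (pre X (e + c)) ∉ ψ e}
        ≤ coin (⋃ e, {X | encode (pre X (e + c)) ∈ ψ e}) := measure_mono hsub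
      _ ≤ ∑' e, coin {X | encode (pre X (e + c)) ∈ ψ e} := measure_iUnion_le _
      _ ≤ ∑' e : ℕ, (2⁻¹ : ℝ≥0∞) ^ e * (2⁻¹ : ℝ≥0∞) ^ c := by
          refine ENNReal.tsum_le_tsum fun e => ?_
          rw [← pow_add]
          exact coin_eq_le ψ e (e + c)
      _ = 2 * (2⁻¹ : ℝ≥0∞) ^ c := by
          rw [ENNReal.tsum_mul_right, ENNReal.tsum_geometric, ENNReal.one_sub_inv_two, inv_inv]
  have h2 : Filter.Tendsto (fun c : ℕ => 2 * (2⁻¹ : ℝ≥0∞) ^ c) Filter.atTop (nhds 0) := by
    have h3 : Filter.Tendsto (fun c : ℕ => (2⁻¹ : ℝ≥0∞) ^ c) Filter.atTop (nhds 0) :=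
      ENNReal.tendsto_pow_atTop_nhds_zero_of_lt_one (by
        rw [ENNReal.inv_lt_one]
        norm_num)
    have h4 := ENNReal.Tendsto.const_mul (a := 2) h3 (Or.inr (by norm_num))
    rwa [mul_zero] at h4
  exact le_antisymm (ge_of_tendsto' h2 h1) zero_le

/-- The function is Turing reducible to the sequence. -/
theorem turing_code (X : ℕ → Bool) (c : ℕ) :
    TuringReducible (fun n => Part.some (encode (pre X (n + c))))
      (fun n => Part.some (X n).toNat) := by
  refine turing_of_word (Φ := fun σ n => if n + c ≤ σ.length then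
    some (encode (σ.take (n + c))) else none) ?_ ?_ ?_
  · have h1 : Primrec fun q : List Bool × ℕ => q.2 + c :=
      Primrec.nat_add.comp Primrec.snd (Primrec.const c)
    have h2 : Primrec fun q : List Bool × ℕ => q.1.take (q.2 + c) :=
      Primrec.list_take.comp h1 Primrec.fst
    have h3 : Primrec fun q : List Bool × ℕ => some (encode (q.1.take (q.2 + c))) :=
      Primrec.option_some.comp (Primrec.encode.comp h2)
    have h4 : PrimrecPred fun q : List Bool × ℕ => q.2 + c ≤ q.1.length :=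
      PrimrecRel.comp Primrec.nat_le h1 (Primrec.list_length.comp Primrec.fst)
    exact (Primrec.ite h4 h3 (Primrec.const none)).to_comp
  · intro n
    refine ⟨n + c, ?_⟩
    rw [pre_length, if_pos le_rfl, pre_take X le_rfl]
  · intro n k m h
    rw [pre_length] at h
    split_ifs at h with h1
    rw [pre_take X h1] at h
    exact (Option.some.inj h).symm

end Pool.Agent.R623.HTR
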