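import Mathlib
import Pool.Agent.Results.MP_743c94_lc.Full

/-!
# The coin-tossing measure on Cantor space
-/

set_option autoImplicit false

namespace Pool.Agent.R623.HTR

open MeasureTheory Set
open Pool.Agent.Results.MP_743c94_lc.Full (pre pre_length pre_take pre_getElem?)
open scoped ENNReal

/-- the fair coin -/
noncomputable def half : Measure Bool := (2 : ℝ≥0∞)⁻¹ • Measure.count

theorem half_singleton (b : Bool) : half {b} = 2⁻¹ := by
  unfold half
  rw [Measure.smul_apply, Measure.count_singleton, smul_eq_mul, mul_one]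

instance : IsProbabilityMeasure half := by
  constructor
  unfold half
  rw [Measure.smul_apply, Measure.count_univ, smul_eq_mul]
  simp only [ENat.card_eq_coe_fintype_card, Fintype.card_bool]
  exact ENNReal.inv_mul_cancel (by norm_num) (by norm_num)

/-- the coin-tossing measure -/
noncomputable def coin : Measure (ℕ → Bool) := Measure.infinitePi fun _ => half

instance : IsProbabilityMeasure coin := by unfold coin; infer_instance

/-- the set of the sequences extending a word -/
def cyl (σ : List Bool) : Set (ℕ → Bool) := {X | pre X σ.length = σ}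

theorem pre_eq_iff {X : ℕ → Bool} {σ : List Bool} :
    pre X σ.length = σ ↔ ∀ i < σ.length, X i = σ.getD i false := by
  constructor
  · intro h i hi
    conv_rhs => rw [← h]
    rw [List.getD_eq_getElem _ _ (by rw [pre_length]; exact hi)]
    simp [pre]
  · intro h
    apply List.ext_getElem
    · rw [pre_length]
    · intro i h1 h2
      rw [← List.getD_eq_getElem _ false h2, ← h i h2]
      simp [pre]

theorem cyl_eq_pi (σ : List Bool) : cyl σ =
    Set.pi (Finset.range σ.length : Finset ℕ) fun i => {σ.getD i false} := by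
  ext X
  simp only [cyl, mem_ofPred_eq, Set.mem_pi, Finset.coe_range, Set.mem_Iio, mem_singleton_iff]
  exact pre_eq_iff

theorem measurableSet_cyl (σ : List Bool) : MeasurableSet (cyl σ) := by
  rw [cyl_eq_pi]
  exact MeasurableSet.pi (Finset.countable_toSet _) fun i _ => measurableSet_singleton _

theorem coin_cyl (σ : List Bool) : coin (cyl σ) = (2⁻¹ : ℝ≥0∞) ^ σ.length := by
  rw [cyl_eq_pi]
  unfold coin
  rw [Measure.infinitePi_pi _ fun i _ => measurableSet_singleton _]
  simp only [half_singleton, Finset.prod_const, Finset.card_range]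

theorem pre_prefix (X : ℕ → Bool) {m n : ℕ} (h : m ≤ n) : (pre X n).take m = pre X m :=
  pre_take X h

theorem cyl_disjoint {σ τ : List Bool} (hl : σ.length = τ.length) (hne : σ ≠ τ) :
    Disjoint (cyl σ) (cyl τ) := by
  rw [Set.disjoint_left]
  intro X h1 h2
  apply hne
  have h1' : pre X σ.length = σ := h1
  have h2' : pre X τ.length = τ := h2
  rw [← h1', ← h2', hl]

theorem coin_biUnion (T : Finset (List Bool)) {t : ℕ} (hT : ∀ τ ∈ T, τ.length = t) :
    coin (⋃ τ ∈ T, cyl τ) = T.card * (2⁻¹ : ℝ≥0∞) ^ t := by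
  rw [measure_biUnion_finset]
  · rw [Finset.sum_congr rfl fun τ hτ => (coin_cyl τ).trans (by rw [hT τ hτ])]
    rw [Finset.sum_const, nsmul_eq_mul]
  · intro σ hσ τ hτ hne
    exact cyl_disjoint ((hT σ hσ).trans (hT τ hτ).symm) hne
  · intro τ _
    exact measurableSet_cyl τ

theorem coin_biUnion_le (S : Set (ℕ → Bool)) (T : Finset (List Bool))
    (h : ∀ τ, 4 * coin (S ∩ cyl τ) ≤ 3 * coin (cyl τ)) {t : ℕ} (hT : ∀ τ ∈ T, τ.length = t) :
    4 * coin (S ∩ ⋃ τ ∈ T, cyl τ) ≤ 3 * coin (⋃ τ ∈ T, cyl τ) := by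
  have h1 : S ∩ (⋃ τ ∈ T, cyl τ) = ⋃ τ ∈ T, (S ∩ cyl τ) := by
    rw [Set.inter_iUnion₂]
  rw [h1]
  calc 4 * coin (⋃ τ ∈ T, (S ∩ cyl τ)) ≤ 4 * ∑ τ ∈ T, coin (S ∩ cyl τ) := by
        gcongr
        exact measure_biUnion_finset_le _ _
    _ = ∑ τ ∈ T, 4 * coin (S ∩ cyl τ) := by rw [Finset.mul_sum]
    _ ≤ ∑ τ ∈ T, 3 * coin (cyl τ) := Finset.sum_le_sum fun τ _ => h τ
    _ = 3 * ∑ τ ∈ T, coin (cyl τ) := by rw [Finset.mul_sum]
    _ = 3 * coin (⋃ τ ∈ T, cyl τ) := by
        rw [coin_biUnion T hT, Finset.sum_congr rfl fun τ hτ =>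
          (coin_cyl τ).trans (by rw [hT τ hτ]), Finset.sum_const, nsmul_eq_mul]

theorem exists_cyl_subset {U : Set (ℕ → Bool)} (hU : IsOpen U) {X : ℕ → Bool} (hX : X ∈ U) :
    ∃ n, ∀ m, n ≤ m → cyl (pre X m) ⊆ U := by
  rw [isOpen_pi_iff] at hU
  obtain ⟨I, u, h1, h2⟩ := hU X hX
  refine ⟨I.sup id + 1, fun m hm Y hY => h2 ?_⟩
  intro i hi
  have h3 : i ≤ I.sup id := Finset.le_sup (f := id) hi
  have h4 : Y i = X i := by
    have hY' : pre Y (pre X m).length = pre X m := hY
    rw [pre_length] at hY'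
    have h5 := pre_getElem? Y (show i < m by omega)
    have h6 := pre_getElem? X (show i < m by omega)
    rw [hY', h6] at h5
    exact (Option.some.inj h5).symm
  show Y i ∈ u i
  rw [h4]
  exact (h1 i hi).2

/-- the words of length `n` -/
theorem finite_words (n : ℕ) : {σ : List Bool | σ.length = n}.Finite := List.finite_length_eq _ n

/-- **The density lemma.** -/
theorem null_of_density (S : Set (ℕ → Bool))
    (h : ∀ τ, 4 * coin (S ∩ cyl τ) ≤ 3 * coin (cyl τ)) : coin S = 0 := by
  classical
  by_contra hne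
  have hfin : coin S ≠ ∞ := measure_ne_top _ _
  have hlt : coin S < coin S + coin S / 4 := by
    apply ENNReal.lt_add_right hfin
    exact (ENNReal.div_pos hne (by norm_num)).ne'
  obtain ⟨U, hSU, hU, hUlt⟩ := Set.exists_isOpen_lt_of_lt S _ hlt
  let T : ℕ → Finset (List Bool) := fun n => (finite_words n).toFinset.filter fun σ => cyl σ ⊆ U
  have hT : ∀ n, ∀ τ ∈ T n, τ.length = n := by
    intro n τ hτ
    simp only [T, Finset.mem_filter, Set.Finite.mem_toFinset, mem_ofPred_eq] at hτ
    exact hτ.1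
  let V : ℕ → Set (ℕ → Bool) := fun n => ⋃ τ ∈ T n, cyl τ
  have hmemV : ∀ n X, X ∈ V n ↔ cyl (pre X n) ⊆ U := by
    intro n X
    simp only [V, mem_iUnion]
    constructor
    · rintro ⟨τ, hτ, hX⟩
      have h1 := hT n τ hτ
      have h2 : pre X τ.length = τ := hX
      rw [h1] at h2
      rw [h2]
      simp only [T, Finset.mem_filter] at hτ
      exact hτ.2
    · intro hc
      refine ⟨pre X n, ?_, ?_⟩
      · simp only [T, Finset.mem_filter, Set.Finite.mem_toFinset, mem_ofPred_eq]
        exact ⟨pre_length X n, hc⟩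
      · show pre X (pre X n).length = pre X n
        rw [pre_length]
  have hVmono : Monotone V := by
    intro m n hmn X hX
    rw [hmemV] at hX ⊢
    intro Y hY
    apply hX
    have hY' : pre Y (pre X n).length = pre X n := hY
    rw [pre_length] at hY'
    show pre Y (pre X m).length = pre X m
    rw [pre_length, ← pre_take Y hmn, hY', pre_take X hmn]
  have hVU : (⋃ n, V n) = U := by
    ext X
    rw [mem_iUnion]
    constructor
    · rintro ⟨n, hn⟩
      rw [hmemV] at hn
      apply hn
      show pre X (pre X n).length = pre X n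
      rw [pre_length]
    · intro hX
      obtain ⟨n, hn⟩ := exists_cyl_subset hU hX
      exact ⟨n, (hmemV n X).2 (hn n le_rfl)⟩
  have h1 : coin S = ⨆ n, coin (S ∩ V n) := by
    have h2 : S = ⋃ n, S ∩ V n := by
      rw [← Set.inter_iUnion, hVU, Set.inter_eq_left.2 hSU]
    conv_lhs => rw [h2]
    apply Monotone.measure_iUnion
    intro m n hmn
    exact Set.inter_subset_inter_right _ (hVmono hmn)
  have h3 : 4 * coin S ≤ 3 * coin U := by
    rw [h1, ENNReal.mul_iSup]
    apply iSup_le
    intro n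
    refine (coin_biUnion_le S (T n) h (hT n)).trans ?_
    gcongr
    rw [← hVU]
    exact Set.subset_iUnion V n
  have h4 : 4 * coin S < 3 * (coin S + coin S / 4) := by
    refine lt_of_le_of_lt h3 ?_
    exact ENNReal.mul_lt_mul_right (by norm_num) (by norm_num) hUlt
  -- arithmetic
  have h5 : (3 : ℝ≥0∞) * (coin S + coin S / 4) ≤ 4 * coin S := by
    have e : coin S = ENNReal.ofReal (coin S).toReal := (ENNReal.ofReal_toReal hfin).symm
    rw [e]
    have h6 : (0 : ℝ) ≤ (coin S).toReal := ENNReal.toReal_nonneg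
    generalize (coin S).toReal = a at h6
    rw [show (4 : ℝ≥0∞) = ENNReal.ofReal 4 by simp, show (3 : ℝ≥0∞) = ENNReal.ofReal 3 by simp,
      ← ENNReal.ofReal_div_of_pos (by norm_num), ← ENNReal.ofReal_add h6 (by positivity),
      ← ENNReal.ofReal_mul (by norm_num), ← ENNReal.ofReal_mul (by norm_num)]
    apply ENNReal.ofReal_le_ofReal
    linarith
  exact absurd h5 (not_le.2 h4)

end Pool.Agent.R623.HTR
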