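import Pool.Agent.R623.C.Alg
import Pool.Agent.R623.C.Meas

/-!
# Almost every sequence computes no solution
-/

set_option autoImplicit false

namespace Pool.Agent.R623.HTR

open MeasureTheory Set Encodable Denumerable
open Nat.Partrec (Code)
open Pool.Agent.Results.MP_743c94_lc.Full (pre pre_length pre_take pre_getElem? elems elems_nodup
  ComputableFrom Pos)
open scoped ENNReal

theorem mem_wrds {t : ℕ} {τ : List Bool} : τ ∈ wrds t ↔ τ.length = t := by
  induction t generalizing τ with
  | zero => simp [wrds]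
  | succ t ih =>
    rw [wrds, List.mem_flatMap]
    constructor
    · rintro ⟨ρ, hρ, h⟩
      rw [ih] at hρ
      simp only [List.mem_cons, List.not_mem_nil, or_false] at h
      rcases h with rfl | rfl <;> simp [hρ]
    · intro h
      have hne : τ ≠ [] := by
        rintro rfl
        simp at h
      refine ⟨τ.dropLast, ?_, ?_⟩
      · rw [ih, List.length_dropLast, h]
        omega
      · simp only [List.mem_cons, List.not_mem_nil, or_false]
        have h1 := List.dropLast_append_getLast hne
        cases h2 : τ.getLast hne with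
        | false => left; rw [h2] at h1; exact h1.symm
        | true => right; rw [h2] at h1; exact h1.symm

theorem nodup_wrds (t : ℕ) : (wrds t).Nodup := by
  induction t with
  | zero => simp [wrds]
  | succ t ih =>
    rw [wrds, List.nodup_flatMap]
    refine ⟨fun τ _ => ?_, ?_⟩
    · simp
    · refine ih.imp ?_
      intro a b hab
      intro x hx hx'
      simp only [List.mem_cons, List.not_mem_nil, or_false] at hx hx'
      apply hab
      rcases hx with rfl | rfl <;> rcases hx' with h | h <;>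
        exact (List.append_inj' h rfl).1

theorem sg_pair (e : ℕ) (σ : List Bool) : sg (Nat.pair e (encode σ)) = σ := by
  unfold sg
  rw [Nat.unpair_pair, encodek]
  rfl

theorem pre_mem_cyl (X : ℕ → Bool) (n : ℕ) : X ∈ cyl (pre X n) := by
  show pre X (pre X n).length = pre X n
  rw [pre_length]

theorem cyl_iff {X : ℕ → Bool} {τ : List Bool} : X ∈ cyl τ ↔ pre X τ.length = τ := Iff.rfl

section

open Classical

/-- the words of length `t` extending the word of `i` -/
noncomputable def ET (i t : ℕ) : Finset (List Bool) := ((wrds t).filter fun τ => Ext i τ).toFinset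

theorem mem_ET {i t : ℕ} {τ : List Bool} : τ ∈ ET i t ↔ τ.length = t ∧ Ext i τ := by
  unfold ET
  rw [List.mem_toFinset, List.mem_filter, mem_wrds]
  simp

theorem card_ET (i t : ℕ) : (ET i t).card = cntE i t := by
  unfold ET cntE
  rw [List.toFinset_card_of_nodup ((nodup_wrds t).filter _)]

theorem card_ETK (i t : ℕ) (w : List Bool) :
    ((ET i t).filter fun τ => Kills w (elems τ i.unpair.1)).card = cntK i t w := by
  unfold cntK
  rw [← List.toFinset_card_of_nodup ((nodup_wrds t).filter _)]
  congr 1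
  ext τ
  rw [Finset.mem_filter, mem_ET, List.mem_toFinset, List.mem_filter, mem_wrds]
  unfold ExtK
  simp [and_assoc]

theorem ET_empty {i t : ℕ} (h : t < (sg i).length) : ET i t = ∅ := by
  rw [Finset.eq_empty_iff_forall_notMem]
  intro τ hτ
  rw [mem_ET] at hτ
  obtain ⟨h1, h2⟩ := hτ
  unfold Ext at h2
  rw [List.take_of_length_le (by omega)] at h2
  rw [h2] at h1
  omega

theorem cyl_eq_ET {i t : ℕ} (h : (sg i).length ≤ t) : cyl (sg i) = ⋃ τ ∈ ET i t, cyl τ := by
  ext X
  rw [mem_iUnion₂]
  constructor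
  · intro hX
    refine ⟨pre X t, ?_, pre_mem_cyl X t⟩
    rw [mem_ET, pre_length]
    refine ⟨rfl, ?_⟩
    unfold Ext
    rw [pre_take X h]
    exact hX
  · rintro ⟨τ, hτ, hX⟩
    rw [mem_ET] at hτ
    rw [cyl_iff, hτ.1] at hX
    have h1 := hτ.2
    unfold Ext at h1
    rw [← hX, pre_take X h] at h1
    exact h1

theorem coin_cyl_ET {i t : ℕ} (h : (sg i).length ≤ t) :
    coin (cyl (sg i)) = cntE i t * (2⁻¹ : ℝ≥0∞) ^ t := by
  rw [cyl_eq_ET h, coin_biUnion (ET i t) fun τ hτ => (mem_ET.1 hτ).1, card_ET]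

theorem bound_of_card {i t : ℕ} (h : (sg i).length ≤ t) {T : Finset (List Bool)}
    (hT : ∀ τ ∈ T, τ.length = t) (hc : 4 * T.card ≤ 3 * cntE i t) :
    4 * coin (⋃ τ ∈ T, cyl τ) ≤ 3 * coin (cyl (sg i)) := by
  rw [coin_biUnion T hT, coin_cyl_ET h, ← mul_assoc, ← mul_assoc]
  refine mul_le_mul_left ?_ _
  exact_mod_cast hc

end

/-- the solutions of the colouring -/
def Sol (H : Set ℕ) : Prop :=
  H.Infinite ∧ ∃ a : Bool, ∀ x ∈ H, ∀ y ∈ H, x ≠ y → colr (x + y) = a

/-- the sequences from which the `e`-th procedure computes a solution -/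
def SS (e : ℕ) : Set (ℕ → Bool) := {X | ∃ H : Set ℕ, Sol H ∧ (∀ n, ∀ x ∈ elems (pre X n) e, x ∈ H) ∧
  ∀ x ∈ H, ∃ n0, ∀ n, n0 ≤ n → x ∈ elems (pre X n) e}

/-- killed words -/
theorem not_mem_SS {w : List Bool} {N : ℕ} (hN : ∀ n, Blk w (fun x => colr (N + x)) n)
    {e : ℕ} {τ : List Bool} (hk : Kills w (elems τ e)) {X : ℕ → Bool} (hX : X ∈ cyl τ) :
    X ∉ SS e := by
  rintro ⟨H, ⟨hinf, a, ha⟩, h1, -⟩
  rw [cyl_iff] at hX
  obtain ⟨y, hy, hyN⟩ := hinf.exists_gt (max N (elems τ e).sum)
  obtain ⟨x, hx, hxy⟩ := hk.persist hN (show N ≤ y by omega) a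
  have hx1 : x ≤ (elems τ e).sum := List.single_le_sum (by simp) x hx
  apply hxy
  have hxH : x ∈ H := by
    apply h1 τ.length
    rw [hX]
    exact hx
  exact ha x hxH y hy (by omega)

theorem eventually_large {e : ℕ} {X : ℕ → Bool} (hX : X ∈ SS e) (k : ℕ) :
    ∃ n0, ∀ n, n0 ≤ n → k ≤ (elems (pre X n) e).length := by
  obtain ⟨H, ⟨hinf, -⟩, -, h2⟩ := hX
  obtain ⟨F, hF, hFc⟩ := hinf.exists_subset_card_eq k
  have hev : ∀ᶠ n in Filter.atTop, ∀ x ∈ F, x ∈ elems (pre X n) e := by
    rw [Filter.eventually_all_finset]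
    intro x hx
    obtain ⟨n0, hn0⟩ := h2 x (hF hx)
    exact Filter.eventually_atTop.2 ⟨n0, hn0⟩
  obtain ⟨n0, hn0⟩ := Filter.eventually_atTop.1 hev
  refine ⟨n0, fun n hn => ?_⟩
  rw [← hFc, ← List.toFinset_card_of_nodup (elems_nodup _ _)]
  refine Finset.card_le_card fun x hx => ?_
  rw [List.mem_toFinset]
  exact hn0 n hn x hx

theorem SS_cyl (e : ℕ) (σ : List Bool) : 4 * coin (SS e ∩ cyl σ) ≤ 3 * coin (cyl σ) := by
  classical
  set i := Nat.pair e (encode σ) with hi
  have hsg : sg i = σ := sg_pair e σ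
  have hie : i.unpair.1 = e := by rw [hi, Nat.unpair_pair]
  rcases dichotomy i with ⟨w, t, N, hlt, hN⟩ | ⟨u, hu, hno⟩
  · -- case 1: killed
    have ht : (sg i).length ≤ t := by
      by_contra hc
      have h1 := ET_empty (i := i) (t := t) (by omega)
      have h2 := card_ET i t
      have h3 := card_ETK i t w
      rw [h1] at h2 h3
      simp only [Finset.card_empty, Finset.filter_empty] at h2 h3
      omega
    have hsub : SS e ∩ cyl σ ⊆
        ⋃ τ ∈ (ET i t).filter (fun τ => ¬ Kills w (elems τ i.unpair.1)), cyl τ := by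
      rintro X ⟨hX1, hX2⟩
      rw [← hsg, cyl_eq_ET ht, mem_iUnion₂] at hX2
      obtain ⟨τ, hτ, hXτ⟩ := hX2
      rw [mem_iUnion₂]
      refine ⟨τ, ?_, hXτ⟩
      rw [Finset.mem_filter]
      refine ⟨hτ, fun hk => ?_⟩
      rw [hie] at hk
      exact not_mem_SS hN hk hXτ hX1
    have hcard := Finset.card_filter_add_card_filter_not (s := ET i t)
      fun τ => Kills w (elems τ i.unpair.1)
    rw [card_ETK, card_ET] at hcard
    calc 4 * coin (SS e ∩ cyl σ) ≤ 4 * coin (⋃ τ ∈ (ET i t).filter
          (fun τ => ¬ Kills w (elems τ i.unpair.1)), cyl τ) := by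
          gcongr
      _ ≤ 3 * coin (cyl (sg i)) := by
          refine bound_of_card ht (fun τ hτ => ?_) (by omega)
          exact (mem_ET.1 (Finset.mem_filter.1 hτ).1).1
      _ = 3 * coin (cyl σ) := by rw [hsg]
  · -- case 2: no answers
    set k := 2 * KK * u.length with hk
    let A : ℕ → Finset (List Bool) := fun t => (ET i t).filter fun τ => k ≤ (elems τ e).length
    have hA : ∀ t, (sg i).length ≤ t → 4 * coin (⋃ τ ∈ A t, cyl τ) ≤ 3 * coin (cyl (sg i)) := by
      intro t ht
      refine bound_of_card ht (fun τ hτ => (mem_ET.1 (Finset.mem_filter.1 hτ).1).1) ?_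
      obtain ⟨v, hv⟩ := exists_kill hu (A t) (fun τ => elems τ e) (fun τ _ => elems_nodup τ e)
        (fun τ hτ => (Finset.mem_filter.1 hτ).2) (fun w => Classical.decPred _)
      have h1 := hno (Nat.pair t (encode v))
      have hvc : vc (Nat.pair t (encode v)) = v := by
        unfold vc
        rw [Nat.unpair_pair, encodek]
        rfl
      rw [QQ_iff, Nat.unpair_pair, hvc] at h1
      dsimp only at h1
      have h2 : ((A t).filter fun τ => Kills (wprod u v) (elems τ e)).card ≤
          cntK i t (wprod u v) := by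
        rw [← card_ETK, hie]
        apply Finset.card_le_card
        intro τ hτ
        rw [Finset.mem_filter] at hτ ⊢
        exact ⟨(Finset.mem_filter.1 hτ.1).1, hτ.2⟩
      have h3 : (@Finset.filter _ (fun τ => Kills (wprod u v) (elems τ e))
          (Classical.decPred _) (A t)).card =
          ((A t).filter fun τ => Kills (wprod u v) (elems τ e)).card := by congr
      rw [h3] at hv
      omega
    let B : ℕ → Set (ℕ → Bool) := fun n => {X | ∀ t, n ≤ t → X ∈ ⋃ τ ∈ A t, cyl τ}
    have hB : Monotone B := by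
      intro m n hmn X hX t ht
      exact hX t (hmn.trans ht)
    have hsub : SS e ∩ cyl σ ⊆ ⋃ n, B n := by
      rintro X ⟨hX1, hX2⟩
      obtain ⟨n0, hn0⟩ := eventually_large hX1 k
      rw [mem_iUnion]
      refine ⟨max n0 (sg i).length, fun t ht => ?_⟩
      rw [mem_iUnion₂]
      refine ⟨pre X t, ?_, pre_mem_cyl X t⟩
      simp only [A, Finset.mem_filter, mem_ET, pre_length]
      refine ⟨⟨trivial, ?_⟩, hn0 t (by omega)⟩
      unfold Ext
      rw [pre_take X (by omega), hsg]
      exact hX2
    calc 4 * coin (SS e ∩ cyl σ) ≤ 4 * coin (⋃ n, B n) := by gcongr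
      _ = 4 * ⨆ n, coin (B n) := by rw [hB.measure_iUnion]
      _ = ⨆ n, 4 * coin (B n) := by rw [ENNReal.mul_iSup]
      _ ≤ 3 * coin (cyl σ) := by
          apply iSup_le
          intro n
          have h1 : B n ⊆ ⋃ τ ∈ A (max n (sg i).length), cyl τ := fun X hX =>
            hX _ (le_max_left _ _)
          calc 4 * coin (B n) ≤ 4 * coin (⋃ τ ∈ A (max n (sg i).length), cyl τ) := by gcongr
            _ ≤ 3 * coin (cyl (sg i)) := hA _ (le_max_right _ _)
            _ = 3 * coin (cyl σ) := by rw [hsg]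

theorem null_SS (e : ℕ) : coin (SS e) = 0 := null_of_density _ (SS_cyl e)

open Pool.Agent.Results.MP_743c94_lc.Full (exists_code) in
theorem mem_SS_of_computable {X h : ℕ → Bool} (hc : ComputableFrom X h)
    (hs : Sol {n | h n = true}) : ∃ e, X ∈ SS e := by
  obtain ⟨Φ, hΦ, hcs⟩ := hc
  obtain ⟨e, he⟩ := exists_code hΦ
  refine ⟨e, _, hs, ?_, ?_⟩
  · intro s n hn
    unfold elems at hn
    rw [List.mem_filter, List.mem_range] at hn
    obtain ⟨hlt, hpos⟩ := hn
    rw [pre_length] at hlt
    have hpos' : Pos e (pre X s) n := by simpa using hpos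
    obtain ⟨k, hk, hev⟩ := hpos'
    rw [List.mem_range, pre_length] at hk
    rw [pre_take X (by omega)] at hev
    have h1 := Code.evaln_sound (Option.mem_def.2 hev)
    rw [he, Part.mem_some_iff] at h1
    have h2 : Φ (pre X k) n = some true := (encode_injective h1).symm
    exact ((hcs n).2 k true h2).symm
  · intro n hn
    obtain ⟨k, hk⟩ := (hcs n).1
    have hn' : h n = true := hn
    have h1 : encode (some true) ∈ Code.eval (ofNat Code e) (encode (pre X k, n)) := by
      rw [he, hk, hn']; exact Part.mem_some _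
    obtain ⟨m, hm⟩ := Code.evaln_complete.1 h1
    refine ⟨max (n + 1) (max k m), fun s hs => ?_⟩
    have hs1 : n + 1 ≤ s := le_trans (le_max_left _ _) hs
    have hs2 : k ≤ s := le_trans (le_trans (le_max_left _ _) (le_max_right _ _)) hs
    have hs3 : m ≤ s := le_trans (le_trans (le_max_right _ _) (le_max_right _ _)) hs
    unfold elems
    rw [List.mem_filter, List.mem_range, pre_length]
    refine ⟨hs1, ?_⟩
    have : Pos e (pre X s) n := by
      refine ⟨k, ?_, ?_⟩
      · rw [List.mem_range, pre_length]; omega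
      · rw [pre_take X hs2, pre_length]
        exact Option.mem_def.1 (Code.evaln_mono hs3 hm)
    simpa using this

/-- **Almost every sequence computes no solution of the computable colouring `colr`.** -/
theorem ae_no_solution : ∀ᵐ X ∂coin, ∀ h : ℕ → Bool, ComputableFrom X h →
    ¬ Sol {n | h n = true} := by
  have h1 : ∀ᵐ X ∂coin, ∀ e, X ∉ SS e := by
    rw [ae_all_iff]
    intro e
    rw [ae_iff]
    simpa using null_SS e
  filter_upwards [h1] with X hX h hc hs
  obtain ⟨e, he⟩ := mem_SS_of_computable hc hs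
  exact hX e he

end Pool.Agent.R623.HTR
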