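import Pool.Agent.R623.C.Dec
import Pool.Agent.Helper617.RM.Orders

/-!
# Turing ideals give models of `RCA₀`
-/

set_option autoImplicit false

namespace Pool.Agent.R623.Om

open Encodable Pool.Agent.Helper446 Pool.Agent.Helper446.Defs Pool.Agent.Helper446.RE
  Pool.Agent.Helper446.Oracle Pool.Agent.R623.Dec Pool.Agent.Helper617.RM

/-- The structure for the language of second-order arithmetic whose numbers are the natural
numbers (with the usual operations) and whose sets are those in `I`. -/
def omegaModel (I : Set (Set ℕ)) : L2Structure.{0} where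
  M := ℕ
  zero := 0
  one := 1
  add := (· + ·)
  mul := (· * ·)
  lt := (· < ·)
  Sets := I

/-- `pre`pend a list to a sequence -/
def app (l : List ℕ) (v : ℕ → ℕ) (i : ℕ) : ℕ := if i < l.length then l.getD i 0
  else v (i - l.length)

theorem app_nil (v : ℕ → ℕ) : app [] v = v := by
  funext i
  simp [app]

theorem app_cons (a : ℕ) (l : List ℕ) (v : ℕ → ℕ) : app (a :: l) v = cons a (app l v) := by
  funext i
  cases i with
  | zero => simp [app, cons]
  | succ i => simp [app, cons]

theorem computable_getD' {γ : Type*} [Primcodable γ] {f : γ → List ℕ} {g : γ → ℕ}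
    (hf : Computable f) (hg : Computable g) : Computable fun x => (f x).getD (g x) 0 :=
  ((Primrec.list_getD 0).to_comp).comp hf hg

theorem app_eq (v : ℕ → ℕ) (i : ℕ) (l : List ℕ) :
    app l v i = (l ++ (List.range (i + 1)).map v).getD i 0 := by
  unfold app
  split_ifs with h
  · rw [List.getD_eq_getElem _ _ h, List.getD_eq_getElem _ _ (by
      rw [List.length_append]; omega), List.getElem_append_left h]
  · rw [List.getD_eq_getElem _ _ (by
      rw [List.length_append, List.length_map, List.length_range]; omega),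
      List.getElem_append_right (by omega)]
    simp

theorem computable_app (v : ℕ → ℕ) (i : ℕ) : Computable fun l : List ℕ => app l v i := by
  have h1 : Computable fun l : List ℕ => l ++ (List.range (i + 1)).map v :=
    Computable.list_append.comp Computable.id (Computable.const _)
  have h2 := computable_getD' h1 (Computable.const i)
  exact h2.of_eq fun l => (app_eq v i l).symm

variable {I : Set (Set ℕ)}

/-- the value of a term -/
def tv (t : Term (omegaModel I)) (v : ℕ → ℕ) : ℕ := t.val v

/-- the truth of a formula -/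
def Hd (φ : Delta0 (omegaModel I)) (v : ℕ → ℕ) : Prop := φ.Holds v

theorem term_comp (t : Term (omegaModel I)) (v : ℕ → ℕ) :
    Computable fun l : List ℕ => tv t (app l v) := by
  induction t with
  | var i => exact computable_app v i
  | const a => exact Computable.const (α := List ℕ) (σ := ℕ) a
  | zero => exact Computable.const (α := List ℕ) (σ := ℕ) 0
  | one => exact Computable.const (α := List ℕ) (σ := ℕ) 1
  | add s t hs ht =>
    exact (Primrec.nat_add.to_comp : Computable₂ fun a b : ℕ => a + b).comp hs ht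
  | mul s t hs ht =>
    exact (Primrec.nat_mul.to_comp : Computable₂ fun a b : ℕ => a * b).comp hs ht

/-- an ideal: any two members are computable from a third one, and everything computable from a
member is a member -/
structure Ideal (I : Set (Set ℕ)) : Prop where
  down : ∀ A B, Le A B → B ∈ I → A ∈ I
  join : ∀ A ∈ I, ∀ B ∈ I, ∃ C ∈ I, Le A C ∧ Le B C
  ne : I.Nonempty

theorem delta0_dec (hI : Ideal I) (φ : Delta0 (omegaModel I)) (v : ℕ → ℕ) :
    ∃ C ∈ I, DecIn C fun l : List ℕ => Hd φ (app l v) := by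
  induction φ with
  | eq s t =>
    obtain ⟨C, hC⟩ := hI.ne
    exact ⟨C, hC, DecIn.eq (β := ℕ) (term_comp s v) (term_comp t v)⟩
  | lt s t =>
    obtain ⟨C, hC⟩ := hI.ne
    exact ⟨C, hC, DecIn.lt (term_comp s v) (term_comp t v)⟩
  | mem t X =>
    have h1 : ∀ B : Set ℕ, DecIn B fun l : List ℕ => tv t (app l v) ∈ B := fun B =>
      DecIn.mem (term_comp t v)
    exact ⟨X.1, X.2, h1 X.1⟩
  | neg φ ih =>
    obtain ⟨C, hC, h⟩ := ih
    exact ⟨C, hC, h.not⟩
  | and φ ψ ih1 ih2 =>
    obtain ⟨C1, hC1, h1⟩ := ih1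
    obtain ⟨C2, hC2, h2⟩ := ih2
    obtain ⟨C, hC, h3, h4⟩ := hI.join C1 hC1 C2 hC2
    exact ⟨C, hC, (h1.trans h3).and (h2.trans h4)⟩
  | ball t φ ih =>
    obtain ⟨C, hC, h⟩ := ih
    refine ⟨C, hC, ?_⟩
    have h1 : DecIn C fun l : List ℕ => ∀ a < tv t (app l v), Hd φ (app (a :: l) v) := by
      refine DecIn.all_lt (S := fun (l : List ℕ) (a : ℕ) => Hd φ (app (a :: l) v)) ?_
        (term_comp t v)
      exact h.comp (f := fun x : List ℕ × ℕ => x.2 :: x.1)
        (Computable.list_cons.comp Computable.snd Computable.fst)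
    refine h1.of_eq fun l => ?_
    simp only [app_cons]
    rfl

theorem comprehension (hI : Ideal I) (θ ψ : Delta0 (omegaModel I)) (v : ℕ → ℕ)
    (h : ∀ n : ℕ, (∃ k : ℕ, Hd θ (cons k (cons n v))) ↔ ∀ k : ℕ, Hd ψ (cons k (cons n v))) :
    {n : ℕ | ∃ k : ℕ, Hd θ (cons k (cons n v))} ∈ I := by
  obtain ⟨C1, hC1, h1⟩ := delta0_dec hI θ v
  obtain ⟨C2, hC2, h2⟩ := delta0_dec hI ψ v
  obtain ⟨C, hC, h3, h4⟩ := hI.join C1 hC1 C2 hC2
  have g1 := h1.trans h3
  have g2 := h2.trans h4
  refine hI.down _ C ?_ hC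
  have hc : Computable fun x : ℕ × ℕ => [x.2, x.1] := by
    refine Computable.list_cons.comp Computable.snd ?_
    exact Computable.list_cons.comp Computable.fst (Computable.const [])
  have e1 : REIn C fun n : ℕ => ∃ k, Hd θ (cons k (cons n v)) := by
    refine REIn.ex (S := fun (n k : ℕ) => Hd θ (cons k (cons n v))) ?_
    refine (g1.1.comp hc).of_eq fun x => ?_
    rw [app_cons, app_cons, app_nil]
  have e2 : REIn C fun n : ℕ => ∃ k, ¬ Hd ψ (cons k (cons n v)) := by
    refine REIn.ex (S := fun (n k : ℕ) => ¬ Hd ψ (cons k (cons n v))) ?_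
    refine (g2.2.comp hc).of_eq fun x => ?_
    show ¬ Hd ψ (app [x.2, x.1] v) ↔ _
    rw [app_cons, app_cons, app_nil]
  refine ⟨e1, e2.of_eq fun n => ?_⟩
  show _ ↔ ¬ ∃ k : ℕ, Hd θ (cons k (cons n v))
  rw [h n]
  push Not
  rfl

/-- **Turing ideals give models of `RCA₀`.** -/
theorem isModel (hI : Ideal I) : IsModelRCA0 (omegaModel I) where
  ax_succ_ne_zero _ := Nat.succ_ne_zero _
  ax_succ_inj _ _ h := Nat.succ.inj h
  ax_add_zero _ := rfl
  ax_add_succ _ _ := rfl
  ax_mul_zero _ := rfl
  ax_mul_succ _ _ := rfl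
  ax_not_lt_zero _ := Nat.not_lt_zero _
  ax_lt_succ _ _ := Nat.lt_succ_iff_lt_or_eq
  sigma1_induction _ _ h0 hs n := Nat.rec h0 hs n
  delta1_comprehension θ ψ v h := comprehension hI θ ψ v h

end Pool.Agent.R623.Om
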