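import Pool.Agent.R623.C.RainC
import Pool.Agent.R623.C.Main
import Pool.Agent.R623.C.Om

/-!
# Iterating
-/

set_option autoImplicit false

namespace Pool.Agent.R623.Iter

open Encodable MeasureTheory Set
open Pool.Agent.Helper446 Pool.Agent.Helper446.Defs Pool.Agent.Helper446.RE
  Pool.Agent.Helper446.Oracle
open Pool.Agent.R623.HTR Pool.Agent.R623.Dec Pool.Agent.R623.Rain
open Pool.Agent.Results.MP_743c94_lc.Full (pre pre_length pre_take join Computes ComputableFrom
  computableFrom_of_turing exists_code)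
open scoped ENNReal

theorem join_even (p q : ℕ → Bool) (n : ℕ) : join p q (2 * n) = p n := by
  unfold join
  rw [if_pos (by omega), show 2 * n / 2 = n by omega]

theorem join_odd (p q : ℕ → Bool) (n : ℕ) : join p q (2 * n + 1) = q n := by
  unfold join
  rw [if_neg (by omega), show (2 * n + 1) / 2 = n by omega]

theorem measurable_join : Measurable fun p : (ℕ → Bool) × (ℕ → Bool) => join p.1 p.2 := by
  rw [measurable_pi_iff]
  intro n
  unfold join
  split_ifs
  · exact (measurable_pi_apply _).comp measurable_fst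
  · exact (measurable_pi_apply _).comp measurable_snd

theorem map_join : Measure.map (fun p : (ℕ → Bool) × (ℕ → Bool) => join p.1 p.2)
    (coin.prod coin) = coin := by
  classical
  refine Measure.eq_infinitePi _ fun s t ht => ?_
  rw [Measure.map_apply measurable_join (MeasurableSet.pi (Finset.countable_toSet _)
    fun i _ => ht i)]
  set s0 := (s.filter fun i => i % 2 = 0).image fun i => i / 2 with hs0
  set s1 := (s.filter fun i => ¬ i % 2 = 0).image fun i => i / 2 with hs1
  have hpre : (fun p : (ℕ → Bool) × (ℕ → Bool) => join p.1 p.2) ⁻¹' (Set.pi s t) =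
      (Set.pi s0 fun m => t (2 * m)) ×ˢ (Set.pi s1 fun m => t (2 * m + 1)) := by
    ext ⟨p, q⟩
    simp only [Set.mem_preimage, Set.mem_pi, Finset.mem_coe, Set.mem_prod, hs0, hs1,
      Finset.mem_image, Finset.mem_filter]
    constructor
    · intro h
      constructor
      · rintro m ⟨i, ⟨hi, h2⟩, rfl⟩
        have h3 := h i hi
        have e : i = 2 * (i / 2) := by omega
        rw [e, join_even] at h3
        exact h3
      · rintro m ⟨i, ⟨hi, h2⟩, rfl⟩
        have h3 := h i hi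
        have e : i = 2 * (i / 2) + 1 := by omega
        rw [e, join_odd] at h3
        exact h3
    · rintro ⟨h0, h1⟩ i hi
      by_cases h2 : i % 2 = 0
      · have h3 := h0 (i / 2) ⟨i, ⟨hi, h2⟩, rfl⟩
        have e : i = 2 * (i / 2) := by omega
        rw [e, join_even]
        exact h3
      · have h3 := h1 (i / 2) ⟨i, ⟨hi, h2⟩, rfl⟩
        have e : i = 2 * (i / 2) + 1 := by omega
        rw [e, join_odd]
        exact h3
  rw [hpre, Measure.prod_prod]
  unfold coin
  rw [Measure.infinitePi_pi _ fun i _ => ht _, Measure.infinitePi_pi _ fun i _ => ht _,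
    ← Finset.prod_filter_mul_prod_filter_not s (fun i => i % 2 = 0)]
  congr 1
  · rw [hs0, Finset.prod_image]
    · refine Finset.prod_congr rfl fun i hi => ?_
      rw [Finset.mem_filter] at hi
      rw [show 2 * (i / 2) = i by omega]
    · intro i hi j hj hij
      have hi := (Finset.mem_filter.1 (Finset.mem_coe.1 hi)).2
      have hj := (Finset.mem_filter.1 (Finset.mem_coe.1 hj)).2
      simp only at hij
      omega
  · rw [hs1, Finset.prod_image]
    · refine Finset.prod_congr rfl fun i hi => ?_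
      rw [Finset.mem_filter] at hi
      rw [show 2 * (i / 2) + 1 = i by omega]
    · intro i hi j hj hij
      have hi := (Finset.mem_filter.1 (Finset.mem_coe.1 hi)).2
      have hj := (Finset.mem_filter.1 (Finset.mem_coe.1 hj)).2
      simp only at hij
      omega

theorem ae_join {P : (ℕ → Bool) → Prop} (h : ∀ᵐ X ∂coin, P X) :
    ∀ᵐ Y ∂coin, ∀ᵐ W ∂coin, P (join Y W) := by
  have h1 : ∀ᵐ z ∂(coin.prod coin), P (join z.1 z.2) := by
    have h2 : ∀ᵐ X ∂(Measure.map (fun p : (ℕ → Bool) × (ℕ → Bool) => join p.1 p.2)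
      (coin.prod coin)), P X := by rw [map_join]; exact h
    exact ae_of_ae_map measurable_join.aemeasurable h2
  exact Measure.ae_ae_of_ae_prod h1

theorem le_left (Z Y : ℕ → Bool) : Le (st Z) (st (join Z Y)) := by
  have h1 : DecIn (st (join Z Y)) fun n : ℕ => 2 * n ∈ st (join Z Y) :=
    DecIn.mem ((Primrec.nat_mul.comp (Primrec.const 2) Primrec.id).to_comp)
  refine h1.of_eq fun n => ?_
  show join Z Y (2 * n) = true ↔ Z n = true
  rw [join_even]

theorem le_right (Z Y : ℕ → Bool) : Le (st Y) (st (join Z Y)) := by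
  have h1 : DecIn (st (join Z Y)) fun n : ℕ => 2 * n + 1 ∈ st (join Z Y) :=
    DecIn.mem (Computable.succ.comp ((Primrec.nat_mul.comp (Primrec.const 2) Primrec.id).to_comp))
  refine h1.of_eq fun n => ?_
  show join Z Y (2 * n + 1) = true ↔ Y n = true
  rw [join_odd]

theorem le_join {Z Y : ℕ → Bool} {A : Set ℕ} (h1 : Le (st Z) A) (h2 : Le (st Y) A) :
    Le (st (join Z Y)) A := by
  have hdiv : Computable fun n : ℕ => n / 2 :=
    (Primrec.nat_div.comp Primrec.id (Primrec.const 2)).to_comp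
  have hmod : Computable fun n : ℕ => n % 2 :=
    (Primrec.nat_mod.comp Primrec.id (Primrec.const 2)).to_comp
  have h3 : DecIn A fun n : ℕ => (n % 2 = 0 ∧ n / 2 ∈ st Z) ∨ (¬ n % 2 = 0 ∧ n / 2 ∈ st Y) :=
    DecIn.or (DecIn.and (DecIn.eq hmod (Computable.const 0)) (DecIn.comp h1 hdiv))
      (DecIn.and (DecIn.eq hmod (Computable.const 0)).not (DecIn.comp h2 hdiv))
  refine h3.of_eq fun n => ?_
  show _ ↔ join Z Y n = true
  unfold join
  by_cases h : n % 2 = 0
  · rw [if_pos h]
    simp [h, st]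
  · rw [if_neg h]
    simp [h, st]

/-- For almost every `Y`, the pair `Z, Y` computes no solution. -/
def Good (Z : ℕ → Bool) : Prop :=
  ∀ᵐ Y ∂coin, ∀ A : Set ℕ, Le A (st (join Z Y)) → ¬ Sol A

theorem computableFrom_of_le {A : Set ℕ} {X : ℕ → Bool} (h : Le A (st X)) {a : ℕ → Bool}
    (ha : st a = A) : ComputableFrom X a := by
  rw [le_iff_turing, ← ha, chi_st, chi_st] at h
  exact computableFrom_of_turing h

open Classical in
theorem st_ind (A : Set ℕ) : st (fun n => decide (n ∈ A)) = A := by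
  ext n
  show decide (n ∈ A) = true ↔ n ∈ A
  simp

theorem good_zero : Good fun _ => false := by
  classical
  filter_upwards [ae_no_solution] with Y hY A hA hs
  have h0 : Le (st fun _ => false) (st Y) := by
    refine (DecIn.eq (f := fun _ : ℕ => false) (g := fun _ => true) (Computable.const _)
      (Computable.const _)).of_eq fun n => ?_
    exact Iff.rfl
  have h1 : Le A (st Y) := hA.trans (le_join h0 (Le.refl _))
  refine hY _ (computableFrom_of_le h1 (st_ind A)) ?_
  have h2 : {n | decide (n ∈ A) = true} = A := st_ind A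
  rw [h2]
  exact hs

theorem good_succ {Z : ℕ → Bool} (h : Good Z) : ∀ᵐ Y ∂coin, Good (join Z Y) := by
  filter_upwards [ae_join h] with Y hY
  filter_upwards [hY] with W hW A hA
  refine hW A (hA.trans (le_join (le_join (le_left _ _) ?_) ?_))
  · exact (le_left Y W).trans (le_right _ _)
  · exact (le_right Y W).trans (le_right _ _)

theorem countable_wf : {Φ : List Bool → ℕ → Option Bool | Computable₂ Φ}.Countable := by
  have h1 : ∀ Φ : {Φ : List Bool → ℕ → Option Bool | Computable₂ Φ}, ∃ e : ℕ,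
      ∀ (σ : List Bool) (n : ℕ), Nat.Partrec.Code.eval (Denumerable.ofNat Nat.Partrec.Code e)
        (encode (σ, n)) = Part.some (encode (Φ.1 σ n)) := fun Φ => exists_code Φ.2
  choose f hf using h1
  refine Set.countable_coe_iff.1 (Function.Injective.countable (f := f) ?_)
  intro Φ Ψ h
  apply Subtype.ext
  funext σ n
  have h2 := hf Φ σ n
  rw [h, hf Ψ σ n] at h2
  exact (encode_injective (Part.some_injective h2)).symm

/-- There are countably many sets computable from a given one. -/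
theorem countable_le (X : ℕ → Bool) : {A : Set ℕ | Le A (st X)}.Countable := by
  classical
  have h1 : {A : Set ℕ | Le A (st X)} ⊆
      ⋃ Φ ∈ {Φ : List Bool → ℕ → Option Bool | Computable₂ Φ},
        {A : Set ℕ | Computes Φ X fun n => decide (n ∈ A)} := by
    intro A hA
    obtain ⟨Φ, h2, h3⟩ := computableFrom_of_le hA (st_ind A)
    rw [mem_iUnion₂]
    exact ⟨Φ, h2, h3⟩
  refine Set.Countable.mono h1 (countable_wf.biUnion fun Φ _ => ?_)
  refine Set.Subsingleton.countable ?_
  intro A hA B hB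
  have hA : Computes Φ X fun n => decide (n ∈ A) := hA
  have hB : Computes Φ X fun n => decide (n ∈ B) := hB
  ext n
  obtain ⟨k, hk⟩ := (hA n).1
  have h2 := (hB n).2 k _ hk
  simpa using h2

/-- the pairing function -/
def pr (x y : ℕ) : ℕ := (x + y) * (x + y) + x

theorem pr_inj {x y u v : ℕ} (h : pr x y = pr u v) : x = u ∧ y = v := by
  unfold pr at h
  have h1 : x + y = u + v := by
    rcases lt_trichotomy (x + y) (u + v) with h1 | h1 | h1
    · exfalso
      have h2 : (x + y + 1) * (x + y + 1) ≤ (u + v) * (u + v) :=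
        Nat.mul_le_mul (by omega) (by omega)
      have h3 : (x + y + 1) * (x + y + 1) = (x + y) * (x + y) + 2 * (x + y) + 1 := by ring
      omega
    · exact h1
    · exfalso
      have h2 : (u + v + 1) * (u + v + 1) ≤ (x + y) * (x + y) :=
        Nat.mul_le_mul (by omega) (by omega)
      have h3 : (u + v + 1) * (u + v + 1) = (u + v) * (u + v) + 2 * (u + v) + 1 := by ring
      omega
  rw [h1] at h
  omega

/-- the set coding the colouring `d` of the pairs `x < y` -/
def code (d : ℕ → ℕ → ℕ) : Set ℕ := {p | ∃ x y, x < y ∧ p = pr (pr x y) (d x y)}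

theorem mem_code {d : ℕ → ℕ → ℕ} {x y z : ℕ} : pr (pr x y) z ∈ code d ↔ x < y ∧ d x y = z := by
  constructor
  · rintro ⟨a, b, hab, h⟩
    obtain ⟨h1, h2⟩ := pr_inj h
    obtain ⟨h3, h4⟩ := pr_inj h1
    subst h3 h4
    exact ⟨hab, h2.symm⟩
  · rintro ⟨h1, rfl⟩
    exact ⟨x, y, h1, rfl⟩

/-- the normalized colouring -/
def nrm (d : ℕ → ℕ → ℕ) (x y : ℕ) : ℕ := if x < y then d x y else 0

theorem nrm_congr {d d' : ℕ → ℕ → ℕ} (h : code d = code d') : nrm d = nrm d' := by
  funext x y
  unfold nrm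
  split_ifs with h1
  · have h2 : pr (pr x y) (d x y) ∈ code d' := by
      rw [← h]
      exact mem_code.2 ⟨h1, rfl⟩
    exact (mem_code.1 h2).2.symm
  · rfl

theorem nrm_lt {d : ℕ → ℕ → ℕ} {x y : ℕ} (h : x < y) : nrm d x y = d x y := if_pos h

theorem two_nrm {d : ℕ → ℕ → ℕ} (h : Two d) : Two (nrm d) := by
  intro x y x' y' x'' y'' h1 h2 h3 h4 h5
  rw [nrm_lt h1, nrm_lt h2] at h4
  rw [nrm_lt h1, nrm_lt h3] at h5
  exact h x y x' y' x'' y'' h1 h2 h3 h4 h5

theorem re_nrm {d : ℕ → ℕ → ℕ} {A : Set ℕ} (h : Le (code d) A) :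
    REIn A fun p : (ℕ × ℕ) × ℕ => nrm d p.1.1 p.1.2 = p.2 := by
  have hpr : Computable₂ pr := by
    unfold pr
    refine Primrec.to_comp ?_
    exact Primrec.nat_add.comp (Primrec.nat_mul.comp (Primrec.nat_add.comp Primrec.fst Primrec.snd)
      (Primrec.nat_add.comp Primrec.fst Primrec.snd)) Primrec.fst
  have h1 : REIn A fun p : (ℕ × ℕ) × ℕ => (p.1.1 < p.1.2 ∧ pr (pr p.1.1 p.1.2) p.2 ∈ code d) ∨
      (¬ p.1.1 < p.1.2 ∧ p.2 = 0) := by
    have hlt : DecIn A fun p : (ℕ × ℕ) × ℕ => p.1.1 < p.1.2 :=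
      DecIn.lt (by fun_prop) (by fun_prop)
    refine REIn.or (REIn.and hlt.1 ?_) (REIn.and hlt.2 ?_)
    · refine h.1.comp (f := fun p : (ℕ × ℕ) × ℕ => pr (pr p.1.1 p.1.2) p.2) ?_
      exact hpr.comp (hpr.comp (Computable.fst.comp Computable.fst)
        (Computable.snd.comp Computable.fst)) Computable.snd
    · exact REIn.of_re (RE.eq (by fun_prop) (by fun_prop))
  refine h1.of_eq fun p => ?_
  rw [mem_code]
  unfold nrm
  split_ifs with h2
  · simp [h2]
  · simp [h2, eq_comm]

/-- `H` is an infinite rainbow set for `d` -/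
def RainbowSet (d : ℕ → ℕ → ℕ) (H : Set ℕ) : Prop :=
  H.Infinite ∧ ∀ x ∈ H, ∀ y ∈ H, ∀ u ∈ H, ∀ v ∈ H, x < y → u < v → d x y = d u v →
    x = u ∧ y = v

theorem ae_rainbow_one (Z : ℕ → Bool) {F : Set ℕ} (hF : Le F (st Z)) :
    ∀ᵐ Y ∂coin, ∀ d, code d = F → Two d → ∃ H, Le H (st (join Z Y)) ∧ RainbowSet d H := by
  by_cases h : ∃ d, code d = F ∧ Two d
  · obtain ⟨d0, h1, h2⟩ := h
    filter_upwards [ae_good (two_nrm h2)] with Y hY d hd _
    obtain ⟨c, hc⟩ := hY
    have hR : REIn (st (join Z Y)) fun p : (ℕ × ℕ) × ℕ => nrm d0 p.1.1 p.1.2 = p.2 :=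
      REIn.trans (le_left Z Y) (re_nrm (by rw [h1]; exact hF))
    refine ⟨range (el (nrm d0) c Y), le_range (le_right Z Y) hR hc,
      Set.infinite_range_of_injective (el_strictMono hc).injective, ?_⟩
    intro x hx y hy u hu v hv hxy huv he
    refine rainb_range hc hx hy hu hv hxy huv ?_
    rw [← nrm_congr (hd.trans h1.symm), nrm_lt hxy, nrm_lt huv]
    exact he
  · refine Filter.Eventually.of_forall fun Y d h1 h2 => ?_
    exact absurd ⟨d, h1, h2⟩ h

/-- `W` solves all the instances computable from `Z` -/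
def Solves (Z W : ℕ → Bool) : Prop :=
  ∀ F, Le F (st Z) → ∀ d, code d = F → Two d → ∃ H, Le H (st W) ∧ RainbowSet d H

theorem ae_solves (Z : ℕ → Bool) : ∀ᵐ Y ∂coin, Solves Z (join Z Y) := by
  have h1 := (ae_ball_iff (μ := coin) (countable_le Z) (p := fun Y F _ => ∀ d, code d = F → Two d →
    ∃ H, Le H (st (join Z Y)) ∧ RainbowSet d H)).2 fun F hF => ae_rainbow_one Z hF
  filter_upwards [h1] with Y hY F hF
  exact hY F hF

theorem exists_next {Z : ℕ → Bool} (h : Good Z) : ∃ W, Good W ∧ Le (st Z) (st W) ∧ Solves Z W := by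
  obtain ⟨Y, h1, h2⟩ := ((good_succ h).and (ae_solves Z)).exists
  exact ⟨join Z Y, h1, le_left Z Y, h2⟩

/-- the sequence of oracles -/
noncomputable def ZZ : ℕ → {Z : ℕ → Bool // Good Z}
  | 0 => ⟨fun _ => false, good_zero⟩
  | n + 1 => ⟨(exists_next (ZZ n).2).choose, (exists_next (ZZ n).2).choose_spec.1⟩

theorem ZZ_le (n : ℕ) : Le (st (ZZ n).1) (st (ZZ (n + 1)).1) :=
  (exists_next (ZZ n).2).choose_spec.2.1

theorem ZZ_solves (n : ℕ) : Solves (ZZ n).1 (ZZ (n + 1)).1 :=
  (exists_next (ZZ n).2).choose_spec.2.2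

theorem ZZ_mono {m n : ℕ} (h : m ≤ n) : Le (st (ZZ m).1) (st (ZZ n).1) := by
  induction h with
  | refl => exact Le.refl _
  | step _ ih => exact ih.trans (ZZ_le _)

/-- the ideal -/
def II : Set (Set ℕ) := {A | ∃ n, Le A (st (ZZ n).1)}

theorem ideal_II : Om.Ideal II where
  down A B h := by
    rintro ⟨n, hn⟩
    exact ⟨n, h.trans hn⟩
  join := by
    rintro A ⟨m, hm⟩ B ⟨n, hn⟩
    refine ⟨st (ZZ (max m n)).1, ⟨_, Le.refl _⟩, hm.trans (ZZ_mono (le_max_left _ _)),
      hn.trans (ZZ_mono (le_max_right _ _))⟩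
  ne := ⟨_, 0, Le.refl _⟩

theorem II_rainbow (d : ℕ → ℕ → ℕ) (h : code d ∈ II) (h2 : Two d) : ∃ H ∈ II, RainbowSet d H := by
  obtain ⟨n, hn⟩ := h
  obtain ⟨H, hH1, hH2⟩ := ZZ_solves n _ hn d rfl h2
  exact ⟨H, ⟨n + 1, hH1⟩, hH2⟩

theorem II_no_solution {H : Set ℕ} (h : H ∈ II) : ¬ Sol H := by
  obtain ⟨n, hn⟩ := h
  obtain ⟨Y, hY⟩ := (ZZ n).2.exists
  exact hY H (hn.trans (le_left _ _))

theorem II_of_computable {A : Set ℕ} (h : ComputablePred (· ∈ A)) : A ∈ II :=
  ⟨0, DecIn.of_cp h⟩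

end Pool.Agent.R623.Iter
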