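import Pool.Agent.R623.C.Rot

/-!
# Words which kill finite sets
-/

set_option autoImplicit false

namespace Pool.Agent.R623.HTR

open Finset

/-- the word composed of copies of `u` and of the complement of `u`, according to `v` -/
def wprod (u v : List Bool) : List Bool := v.flatMap fun b => u.map (xor b)

theorem length_wprod (u v : List Bool) : (wprod u v).length = v.length * u.length := by
  unfold wprod
  induction v with
  | nil => simp
  | cons b v ih =>
    rw [List.flatMap_cons, List.length_append, ih, List.length_map, List.length_cons]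
    ring

theorem getD_wprod {u v : List Bool} (hu : 0 < u.length) {x : ℕ} (hx : x < v.length * u.length) :
    (wprod u v).getD x false =
      xor (v.getD (x / u.length) false) (u.getD (x % u.length) false) := by
  induction v generalizing x with
  | nil => simp at hx
  | cons b v ih =>
    have e : wprod u (b :: v) = u.map (xor b) ++ wprod u v := by
      unfold wprod; rw [List.flatMap_cons]
    rw [e]
    rcases Nat.lt_or_ge x u.length with h | h
    · rw [List.getD_append _ _ _ _ (by rw [List.length_map]; exact h), Nat.div_eq_of_lt h,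
        Nat.mod_eq_of_lt h, List.getD_cons_zero]
      rw [List.getD_eq_getElem _ _ (by rw [List.length_map]; exact h), List.getElem_map,
        List.getD_eq_getElem _ _ h]
    · rw [List.getD_append_right _ _ _ _ (by rw [List.length_map]; exact h), List.length_map]
      have h1 : x - u.length < v.length * u.length := by
        rw [List.length_cons] at hx
        have : (v.length + 1) * u.length = v.length * u.length + u.length := by ring
        omega
      rw [ih h1]
      have h2 : x / u.length = (x - u.length) / u.length + 1 := by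
        rw [Nat.div_eq_sub_div hu h]
      have h3 : x % u.length = (x - u.length) % u.length := Nat.mod_eq_sub_mod h
      rw [h2, h3, List.getD_cons_succ]

/-- two consecutive blocks `± u` -/
def ww (u : List Bool) (s1 s2 : Bool) (x : ℕ) : Bool :=
  bif decide (x < u.length) then xor s1 (u.getD x false) else xor s2 (u.getD (x - u.length) false)

/-- no translate of the finite set `F` is monochromatic in a sequence composed of blocks
`± u` -/
def Kills (u : List Bool) (F : List ℕ) : Prop :=
  0 < u.length ∧ (∀ x ∈ F, x < u.length) ∧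
    ∀ t < u.length, ∀ s1 s2 : Bool, ∃ x ∈ F, ww u s1 s2 (t + x) = true

theorem ww_not (u : List Bool) (s1 s2 : Bool) (x : ℕ) : ww u (!s1) (!s2) x = !(ww u s1 s2 x) := by
  unfold ww
  cases decide (x < u.length) <;> simp

/-- the first `n` values of `f` are composed of blocks `± u` -/
def Blk (u : List Bool) (f : ℕ → Bool) (n : ℕ) : Prop :=
  ∀ x < n, xor (f x) (f (x / u.length * u.length)) =
    xor (u.getD (x % u.length) false) (u.getD 0 false)

theorem Kills.persist {u : List Bool} {F : List ℕ} (h : Kills u F) {c : ℕ → Bool} {N : ℕ}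
    (hc : ∀ n, Blk u (fun x => c (N + x)) n) {y : ℕ} (hy : N ≤ y) (col : Bool) :
    ∃ x ∈ F, c (x + y) ≠ col := by
  obtain ⟨h0, hF, hk⟩ := h
  obtain ⟨t, rfl⟩ := Nat.exists_eq_add_of_le hy
  set ℓ := u.length with hℓ
  let a : ℕ → Bool := fun q => xor (c (N + q * ℓ)) (u.getD 0 false)
  have hval : ∀ z, c (N + z) = xor (a (z / ℓ)) (u.getD (z % ℓ) false) := by
    intro z
    have := hc (z + 1) z (Nat.lt_succ_self z)
    beta_reduce at this
    rw [← hℓ] at this
    show _ = xor (xor (c (N + z / ℓ * ℓ)) (u.getD 0 false)) _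
    revert this
    generalize c (N + z) = p
    generalize c (N + z / ℓ * ℓ) = q
    generalize u.getD (z % ℓ) false = r
    generalize u.getD 0 false = s
    cases p <;> cases q <;> cases r <;> cases s <;> decide
  have key : ∀ x ∈ F, c (x + (N + t)) = ww u (a (t / ℓ)) (a (t / ℓ + 1)) (t % ℓ + x) := by
    intro x hx
    have e : x + (N + t) = N + (t + x) := by ring
    rw [e, hval]
    have h1 := hF x hx
    have h2 : t % ℓ < ℓ := Nat.mod_lt _ h0
    have h3 : t + x = t % ℓ + x + ℓ * (t / ℓ) := by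
      have := Nat.mod_add_div t ℓ
      omega
    unfold ww
    rw [← hℓ]
    rcases Nat.lt_or_ge (t % ℓ + x) ℓ with h4 | h4
    · rw [decide_eq_true h4, cond_true, h3, Nat.add_mul_div_left _ _ h0,
        Nat.add_mul_mod_self_left, Nat.div_eq_of_lt h4, Nat.mod_eq_of_lt h4, zero_add]
    · rw [decide_eq_false (by omega), cond_false, h3, Nat.add_mul_div_left _ _ h0,
        Nat.add_mul_mod_self_left]
      have h5 : (t % ℓ + x) / ℓ = 1 := by
        rw [Nat.div_eq_sub_div h0 h4, Nat.div_eq_of_lt (by omega)]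
      have h6 : (t % ℓ + x) % ℓ = t % ℓ + x - ℓ := by
        rw [Nat.mod_eq_sub_mod h4, Nat.mod_eq_of_lt (by omega)]
      rw [h5, h6, add_comm 1]
  have h2 : t % ℓ < ℓ := Nat.mod_lt _ h0
  cases col with
  | true =>
    obtain ⟨x, hx, hx'⟩ := hk (t % ℓ) h2 (!(a (t / ℓ))) (!(a (t / ℓ + 1)))
    refine ⟨x, hx, ?_⟩
    rw [key x hx]
    rw [ww_not] at hx'
    intro hcon
    rw [hcon] at hx'
    exact Bool.noConfusion hx'
  | false =>
    obtain ⟨x, hx, hx'⟩ := hk (t % ℓ) h2 (a (t / ℓ)) (a (t / ℓ + 1))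
    refine ⟨x, hx, ?_⟩
    rw [key x hx, hx']
    exact Bool.noConfusion

/-- the `k` smallest elements of a finite set -/
theorem exists_lower (B : Finset ℕ) (k : ℕ) (hk : k ≤ B.card) :
    ∃ C ⊆ B, C.card = k ∧ ∀ c ∈ C, ∀ b ∈ B \ C, c < b := by
  induction k with
  | zero => exact ⟨∅, by simp, by simp, by simp⟩
  | succ k ih =>
    obtain ⟨C, hCB, hCk, hlt⟩ := ih (by omega)
    have hne : (B \ C).Nonempty := by
      rw [← card_pos, card_sdiff_of_subset hCB]
      omega
    refine ⟨insert ((B \ C).min' hne) C, ?_, ?_, ?_⟩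
    · intro x hx
      rw [mem_insert] at hx
      rcases hx with rfl | hx
      · exact (mem_sdiff.1 ((B \ C).min'_mem hne)).1
      · exact hCB hx
    · rw [card_insert_of_notMem (mem_sdiff.1 ((B \ C).min'_mem hne)).2, hCk]
    · intro c hc b hb
      rw [mem_sdiff, mem_insert, not_or] at hb
      obtain ⟨hb1, hb2, hb3⟩ := hb
      have hb4 : b ∈ B \ C := mem_sdiff.2 ⟨hb1, hb3⟩
      rw [mem_insert] at hc
      rcases hc with rfl | hc
      · exact lt_of_le_of_ne ((B \ C).min'_le b hb4) (Ne.symm hb2)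
      · exact hlt c hc b hb4

theorem exists_split (B : Finset ℕ) (k : ℕ) (hk : 2 * k ≤ B.card) :
    ∃ B1 B2 : Finset ℕ, B1 ⊆ B ∧ B2 ⊆ B ∧ B1.card = k ∧ B2.card = k ∧
      ∀ T, (∀ b ∈ B1, b < T) ∨ (∀ b ∈ B2, T ≤ b) := by
  obtain ⟨B1, h1, h2, h3⟩ := exists_lower B k (by omega)
  have h4 : k ≤ (B \ B1).card := by
    rw [card_sdiff_of_subset h1]
    omega
  obtain ⟨B2, h5, h6⟩ := exists_subset_card_eq h4
  refine ⟨B1, B2, h1, fun x hx => (mem_sdiff.1 (h5 hx)).1, h2, h6, fun T => ?_⟩
  by_cases h : ∀ b ∈ B1, b < T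
  · exact Or.inl h
  · right
    push Not at h
    obtain ⟨b1, hb1, hb1'⟩ := h
    intro b hb
    exact (hb1'.trans (h3 b1 hb1 b (h5 hb)).le)

theorem cell_period (R β x m : ℕ) : cell R β (x + R * MM * m) = cell R β x := by
  unfold cell
  have : (x + R * MM * m) * β = x * β + R * MM * (m * β) := by ring
  rw [this, Nat.add_mul_mod_self_left]

/-- one residue class of a large set -/
theorem exists_class {ℓ : ℕ} (hℓ : 0 < ℓ) (k : ℕ) (F : List ℕ) (hn : F.Nodup)
    (hF : k * ℓ ≤ F.length) :
    ∃ ρ < ℓ, ∃ B : Finset ℕ, k ≤ B.card ∧ ∀ b ∈ B, b * ℓ + ρ ∈ F := by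
  have h1 : ∀ x ∈ F.toFinset, x % ℓ ∈ range ℓ := fun x _ => mem_range.2 (Nat.mod_lt _ hℓ)
  have h2 : (range ℓ).Nonempty := ⟨0, mem_range.2 hℓ⟩
  have h3 : (range ℓ).card * k ≤ F.toFinset.card := by
    rw [card_range, List.toFinset_card_of_nodup hn, mul_comm]
    exact hF
  obtain ⟨ρ, hρ, hk⟩ := exists_le_card_fiber_of_mul_le_card_of_maps_to h1 h2 h3
  refine ⟨ρ, mem_range.1 hρ, (F.toFinset.filter fun x => x % ℓ = ρ).image (· / ℓ), ?_, ?_⟩
  · rw [card_image_of_injOn]
    · exact hk
    · intro x hx y hy hxy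
      have hx' := (mem_filter.1 (mem_coe.1 hx)).2
      have hy' := (mem_filter.1 (mem_coe.1 hy)).2
      have hxy' : x / ℓ = y / ℓ := hxy
      rw [← Nat.div_add_mod x ℓ, ← Nat.div_add_mod y ℓ, hx', hy', hxy']
  · intro b hb
    rw [mem_image] at hb
    obtain ⟨x, hx, rfl⟩ := hb
    rw [mem_filter, List.mem_toFinset] at hx
    have h4 := Nat.div_add_mod x ℓ
    rw [hx.2, mul_comm] at h4
    rw [h4]
    exact hx.1

/-- **Existence of killing words.** -/
theorem exists_kill {u : List Bool} (hu : 0 < u.length) {ι : Type*} (Ω : Finset ι)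
    (F : ι → List ℕ) (hn : ∀ i ∈ Ω, (F i).Nodup)
    (hF : ∀ i ∈ Ω, 2 * KK * u.length ≤ (F i).length)
    (hdec : ∀ w, DecidablePred fun i => Kills w (F i)) :
    ∃ v : List Bool, Ω.card ≤ 2 * (@Finset.filter _ (fun i => Kills (wprod u v) (F i))
      (hdec _) Ω).card := by
  classical
  set ℓ := u.length with hℓ
  have hex : ∀ i ∈ Ω, ∃ ρ < ℓ, ∃ B : Finset ℕ, 2 * KK ≤ B.card ∧ ∀ b ∈ B, b * ℓ + ρ ∈ F i :=
    fun i hi => exists_class hu _ (F i) (hn i hi) (hF i hi)
  choose! ρ hρ B hB1 hB2 using hex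
  have hex2 : ∀ i ∈ Ω, ∃ B1 B2 : Finset ℕ, B1 ⊆ B i ∧ B2 ⊆ B i ∧ B1.card = KK ∧ B2.card = KK ∧
      ∀ T, (∀ b ∈ B1, b < T) ∨ (∀ b ∈ B2, T ≤ b) := fun i hi => exists_split (B i) KK (hB1 i hi)
  choose! B1 B2 hs1 hs2 hc1 hc2 hT using hex2
  -- a bound
  obtain ⟨R, hR⟩ : ∃ R, ∀ i ∈ Ω, ∀ x ∈ F i, x < R := by
    refine ⟨(Ω.sup fun i => (F i).sum) + 1, fun i hi x hx => ?_⟩
    have h1 : x ≤ (F i).sum := List.single_le_sum (by simp) x hx
    have h2 := Finset.le_sup (f := fun i => (F i).sum) hi
    beta_reduce at h2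
    omega
  have hR' : ∀ i ∈ Ω, ∀ b ∈ B i, b < R := by
    intro i hi b hb
    have h1 := hR i hi _ (hB2 i hi b hb)
    have h2 : b ≤ b * ℓ := Nat.le_mul_of_pos_right _ hu
    omega
  obtain ⟨R1, hR1, hR1R⟩ : ∃ R1, 0 < R1 ∧ R ≤ R1 := ⟨R + 1, by omega, by omega⟩
  obtain ⟨β, h, hbad⟩ := exists_rotation (Ω ×ˢ (univ : Finset Bool))
    (fun q => if q.2 then B1 q.1 else B2 q.1) hR1 (by
      rintro ⟨i, c⟩ hq b hb
      have hi := (mem_product.1 hq).1
      cases c with
      | true => exact lt_of_lt_of_le (hR' i hi b (hs1 i hi hb)) hR1R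
      | false => exact lt_of_lt_of_le (hR' i hi b (hs2 i hi hb)) hR1R) (by
      rintro ⟨i, c⟩ hq
      have hi := (mem_product.1 hq).1
      cases c with
      | true => exact hc1 i hi
      | false => exact hc2 i hi) (fun v => Classical.decPred _)
  set w := vv R1 β h with hw
  refine ⟨(List.range R1).map w, ?_⟩
  set v := (List.range R1).map w with hv
  have hvl : v.length = R1 := by rw [hv]; simp
  have hvget : ∀ x < R1, v.getD x false = w x := by
    intro x hx
    rw [hv, List.getD_eq_getElem _ _ (by simpa using hx)]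
    simp
  -- good indices are killed
  have hkill : ∀ i ∈ Ω, ¬ Mono w (B1 i) → ¬ Mono w (B2 i) → Kills (wprod u v) (F i) := by
    intro i hi hm1 hm2
    have hlen : (wprod u v).length = R1 * ℓ := by rw [length_wprod, hvl]
    refine ⟨?_, ?_, ?_⟩
    · rw [hlen]; exact Nat.mul_pos hR1 hu
    · intro x hx
      rw [hlen]
      have h1 := hR i hi x hx
      have h2 : R1 ≤ R1 * ℓ := Nat.le_mul_of_pos_right _ hu
      omega
    · intro t ht s1 s2
      rw [hlen] at ht
      by_contra hcon
      push Not at hcon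
      -- the block index
      set t' := t / ℓ + (t % ℓ + ρ i) / ℓ with ht'
      set r' := (t % ℓ + ρ i) % ℓ with hr'
      have hr'l : r' < ℓ := Nat.mod_lt _ hu
      have hdecomp : ∀ b, t + (b * ℓ + ρ i) = (t' + b) * ℓ + r' := by
        intro b
        have h1 := Nat.div_add_mod t ℓ
        have h2 := Nat.div_add_mod (t % ℓ + ρ i) ℓ
        calc t + (b * ℓ + ρ i) = (ℓ * (t / ℓ) + t % ℓ) + (b * ℓ + ρ i) := by rw [h1]
          _ = ℓ * (t / ℓ) + (t % ℓ + ρ i) + b * ℓ := by ring
          _ = ℓ * (t / ℓ) + (ℓ * ((t % ℓ + ρ i) / ℓ) + (t % ℓ + ρ i) % ℓ) + b * ℓ := by rw [h2]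
          _ = (t' + b) * ℓ + r' := by rw [ht', hr']; ring
      have hval : ∀ b ∈ B i, ww (wprod u v) s1 s2 (t + (b * ℓ + ρ i)) = false := by
        intro b hb
        have := hcon _ (hB2 i hi b hb)
        simpa using this
      have hlow : ∀ b ∈ B i, t' + b < R1 → w (t' + b) = xor s1 (u.getD r' false) := by
        intro b hb hlt
        have h1 := hval b hb
        have h2 : (t' + b) * ℓ + r' < R1 * ℓ := by
          calc (t' + b) * ℓ + r' < (t' + b) * ℓ + ℓ := by omega
            _ = (t' + b + 1) * ℓ := by ring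
            _ ≤ R1 * ℓ := Nat.mul_le_mul_right _ hlt
        unfold ww at h1
        rw [hdecomp b, decide_eq_true (by rw [hlen]; exact h2), cond_true,
          getD_wprod hu (by rw [hvl]; exact h2), ← hℓ] at h1
        have h3 : ((t' + b) * ℓ + r') / ℓ = t' + b := by
          rw [mul_comm, Nat.mul_add_div hu, Nat.div_eq_of_lt hr'l, add_zero]
        have h4 : ((t' + b) * ℓ + r') % ℓ = r' := by
          rw [mul_comm, Nat.mul_add_mod, Nat.mod_eq_of_lt hr'l]
        rw [h3, h4, hvget _ hlt] at h1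
        revert h1
        cases s1 <;> cases w (t' + b) <;> cases u.getD r' false <;> decide
      have hhigh : ∀ b ∈ B i, R1 ≤ t' + b → w (t' + b - R1) = xor s2 (u.getD r' false) := by
        intro b hb hle
        have h1 := hval b hb
        have hbR : b < R1 := lt_of_lt_of_le (hR' i hi b hb) hR1R
        have htR : t' ≤ R1 := by
          have h5 : t / ℓ < R1 := by rw [Nat.div_lt_iff_lt_mul hu]; exact ht
          have h6 : (t % ℓ + ρ i) / ℓ ≤ 1 := by
            have := Nat.mod_lt t hu
            have := hρ i hi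
            rw [← Nat.lt_succ_iff, Nat.div_lt_iff_lt_mul hu]
            omega
          omega
        have h7 : t' + b - R1 < R1 := by omega
        have h2 : (t' + b) * ℓ + r' = R1 * ℓ + ((t' + b - R1) * ℓ + r') := by
          obtain ⟨z, hz⟩ := Nat.exists_eq_add_of_le hle
          rw [hz, Nat.add_sub_cancel_left]
          ring
        have h8 : (t' + b - R1) * ℓ + r' < R1 * ℓ := by
          calc (t' + b - R1) * ℓ + r' < (t' + b - R1) * ℓ + ℓ := by omega
            _ = (t' + b - R1 + 1) * ℓ := by ring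
            _ ≤ R1 * ℓ := Nat.mul_le_mul_right _ h7
        unfold ww at h1
        rw [hdecomp b, h2, decide_eq_false (by rw [hlen]; omega), cond_false, hlen,
          Nat.add_sub_cancel_left, getD_wprod hu (by rw [hvl]; exact h8), ← hℓ] at h1
        have h3 : ((t' + b - R1) * ℓ + r') / ℓ = t' + b - R1 := by
          rw [mul_comm, Nat.mul_add_div hu, Nat.div_eq_of_lt hr'l, add_zero]
        have h4 : ((t' + b - R1) * ℓ + r') % ℓ = r' := by
          rw [mul_comm, Nat.mul_add_mod, Nat.mod_eq_of_lt hr'l]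
        rw [h3, h4, hvget _ h7] at h1
        revert h1
        cases s2 <;> cases w (t' + b - R1) <;> cases u.getD r' false <;> decide
      rcases hT i hi (R1 - t') with h1 | h1
      · apply hm1
        exact ⟨t', _, fun b hb => hlow b (hs1 i hi hb) (by have := h1 b hb; omega)⟩
      · apply hm2
        have hQ : R1 ≤ R1 * MM * R1 := by
          have h2 : 0 < R1 * MM := Nat.mul_pos hR1 MM_pos
          exact Nat.le_mul_of_pos_left _ h2
        refine ⟨t' + (R1 * MM * R1 - R1), xor s2 (u.getD r' false), fun b hb => ?_⟩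
        have h2 := hhigh b (hs2 i hi hb) (by have := h1 b hb; omega)
        rw [← h2]
        have h3 : t' + (R1 * MM * R1 - R1) + b = (t' + b - R1) + R1 * MM * R1 := by
          have := h1 b hb
          omega
        rw [h3]
        show decide (cell R1 β _ ∈ h) = decide (cell R1 β _ ∈ h)
        rw [cell_period]
  -- counting
  have hsub : (Ω.filter fun i => ¬ Kills (wprod u v) (F i)) ⊆
      ((Ω ×ˢ (univ : Finset Bool)).filter fun q =>
        Mono w (if q.2 then B1 q.1 else B2 q.1)).image Prod.fst := by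
    intro i hi
    rw [mem_filter] at hi
    rw [mem_image]
    by_cases hm1 : Mono w (B1 i)
    · exact ⟨(i, true), mem_filter.2 ⟨mem_product.2 ⟨hi.1, mem_univ _⟩, hm1⟩, rfl⟩
    · by_cases hm2 : Mono w (B2 i)
      · exact ⟨(i, false), mem_filter.2 ⟨mem_product.2 ⟨hi.1, mem_univ _⟩, hm2⟩, rfl⟩
      · exact absurd (hkill i hi.1 hm1 hm2) hi.2
  have h1 := (card_le_card hsub).trans card_image_le
  have h2 := card_filter_add_card_filter_not (s := Ω) fun i => Kills (wprod u v) (F i)
  rw [card_product, card_univ, Fintype.card_bool] at hbad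
  have h3 : (@Finset.filter _ (fun i => Kills (wprod u v) (F i)) (hdec _) Ω).card =
      (Ω.filter fun i => Kills (wprod u v) (F i)).card := by congr
  rw [h3]
  have h4 : ((Ω ×ˢ (univ : Finset Bool)).filter fun q =>
        Mono w (if q.2 then B1 q.1 else B2 q.1)).card =
      (@Finset.filter _ (fun q : ι × Bool => Mono w (if q.2 then B1 q.1 else B2 q.1))
        (Classical.decPred _) (Ω ×ˢ (univ : Finset Bool))).card := by congr
  rw [h4] at h1
  omega

end Pool.Agent.R623.HTR
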