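import Pool.Agent.R623.C.Meas

/-!
# Random greedy construction of rainbow sets
-/

set_option autoImplicit false

namespace Pool.Agent.R623.Rain

open Encodable MeasureTheory Set
open Pool.Agent.R623.HTR
open Pool.Agent.Results.MP_743c94_lc.Full (pre pre_length pre_take)
open scoped ENNReal

/-- every colour is used at most twice -/
def Two (d : ℕ → ℕ → ℕ) : Prop :=
  ∀ x y x' y' x'' y'', x < y → x' < y' → x'' < y'' → d x y = d x' y' → d x y = d x'' y'' →
    (x = x' ∧ y = y') ∨ (x = x'' ∧ y = y'') ∨ (x' = x'' ∧ y' = y'')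

/-- the list is a rainbow for the colouring -/
def Rainb (d : ℕ → ℕ → ℕ) (L : List ℕ) : Prop :=
  ∀ x ∈ L, ∀ y ∈ L, ∀ u ∈ L, ∀ v ∈ L, x < y → u < v → d x y = d u v → x = u ∧ y = v

/-- the possible next elements -/
def RR (d : ℕ → ℕ → ℕ) (L : List ℕ) (y : ℕ) : Prop := (∀ z ∈ L, z < y) ∧ Rainb d (y :: L)

theorem RR.rainb {d : ℕ → ℕ → ℕ} {L : List ℕ} {y : ℕ} (h : RR d L y) : Rainb d L := by
  intro a ha b hb u hu v hv
  exact h.2 a (List.mem_cons_of_mem _ ha) b (List.mem_cons_of_mem _ hb) u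
    (List.mem_cons_of_mem _ hu) v (List.mem_cons_of_mem _ hv)

theorem class_finite {d : ℕ → ℕ → ℕ} (hd : Two d) (k : ℕ) :
    {p : ℕ × ℕ | p.1 < p.2 ∧ d p.1 p.2 = k}.Finite := by
  by_contra hinf
  obtain ⟨F, hF, hFc⟩ := Set.Infinite.exists_subset_card_eq hinf 3
  obtain ⟨a, b, c, hab, hac, hbc, rfl⟩ := Finset.card_eq_three.1 hFc
  have ha : a.1 < a.2 ∧ d a.1 a.2 = k := hF (by simp)
  have hb : b.1 < b.2 ∧ d b.1 b.2 = k := hF (by simp)
  have hc : c.1 < c.2 ∧ d c.1 c.2 = k := hF (by simp)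
  rcases hd a.1 a.2 b.1 b.2 c.1 c.2 ha.1 hb.1 hc.1 (ha.2.trans hb.2.symm)
    (ha.2.trans hc.2.symm) with h | h | h
  · exact hab (Prod.ext h.1 h.2)
  · exact hac (Prod.ext h.1 h.2)
  · exact hbc (Prod.ext h.1 h.2)

/-- the numbers which are the larger member of a pair with a given colour -/
theorem ex_finite {d : ℕ → ℕ → ℕ} (hd : Two d) (K : Finset ℕ) :
    {y | ∃ u, u < y ∧ d u y ∈ K}.Finite := by
  have h1 : (⋃ k ∈ K, Prod.snd '' {p : ℕ × ℕ | p.1 < p.2 ∧ d p.1 p.2 = k}).Finite := by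
    refine Set.Finite.biUnion (Finset.finite_toSet K) fun k _ => ?_
    exact (class_finite hd k).image _
  refine h1.subset ?_
  rintro y ⟨u, hu, hK⟩
  rw [mem_iUnion₂]
  exact ⟨d u y, hK, (u, y), ⟨hu, rfl⟩, rfl⟩

/-- the colours of the pairs of a list -/
def cols (d : ℕ → ℕ → ℕ) (L : List ℕ) : Finset ℕ :=
  (L.toFinset ×ˢ L.toFinset).image fun p => d p.1 p.2

theorem mem_cols {d : ℕ → ℕ → ℕ} {L : List ℕ} {a b : ℕ} (ha : a ∈ L) (hb : b ∈ L) :
    d a b ∈ cols d L := by
  unfold cols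
  rw [Finset.mem_image]
  exact ⟨(a, b), by simp [ha, hb], rfl⟩

/-- An obstruction of the last kind. -/
theorem obstruct {d : ℕ → ℕ → ℕ} {L : List ℕ} {x y : ℕ} (hx : RR d L x) (hy : RR d L y)
    (hxy : x < y) (hK : ¬ ∃ u, u < y ∧ d u y ∈ cols d (x :: L)) (hn : ¬ RR d (x :: L) y) :
    ∃ a ∈ L, d a y = d x y := by
  have hlt : ∀ z ∈ x :: L, z < y := by
    intro z hz
    rcases List.mem_cons.1 hz with rfl | hz
    · exact hxy
    · exact hy.1 z hz
  have h1 : ¬ Rainb d (y :: x :: L) := fun h => hn ⟨hlt, h⟩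
  unfold Rainb at h1
  push Not at h1
  obtain ⟨a, ha, b, hb, u, hu, v, hv, hab, huv, hc, hne⟩ := h1
  have hsmall : ∀ z ∈ y :: x :: L, ∀ w ∈ y :: x :: L, z < w → z ∈ x :: L := by
    intro z hz w hw hzw
    rcases List.mem_cons.1 hz with rfl | hz
    · exfalso
      rcases List.mem_cons.1 hw with rfl | hw
      · exact lt_irrefl _ hzw
      · exact absurd (hlt w hw) (by omega)
    · exact hz
  have ha' := hsmall a ha b hb hab
  have hu' := hsmall u hu v hv huv
  rcases List.mem_cons.1 hb with rfl | hb'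
  · rcases List.mem_cons.1 hv with rfl | hv'
    · -- both pairs contain `y`
      have hau : a ≠ u := fun h => hne h rfl
      rcases List.mem_cons.1 ha' with rfl | ha''
      · rcases List.mem_cons.1 hu' with rfl | hu''
        · exact absurd rfl hau
        · exact ⟨u, hu'', hc.symm⟩
      · rcases List.mem_cons.1 hu' with rfl | hu''
        · exact ⟨a, ha'', hc⟩
        · exfalso
          exact hau (hy.2 a (List.mem_cons_of_mem _ ha'') _ (List.mem_cons_self ..) u
            (List.mem_cons_of_mem _ hu'') _ (List.mem_cons_self ..) hab huv hc).1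
    · exfalso
      exact hK ⟨a, hab, by rw [hc]; exact mem_cols hu' hv'⟩
  · rcases List.mem_cons.1 hv with rfl | hv'
    · exfalso
      exact hK ⟨u, huv, by rw [← hc]; exact mem_cols ha' hb'⟩
    · exfalso
      have := hx.2 a ha' b hb' u hu' v hv' hab huv hc
      exact hne this.1 this.2

/-- There are few bad extensions. -/
theorem bad_card {d : ℕ → ℕ → ℕ} (hd : Two d) {L : List ℕ} (hL : {y | RR d L y}.Infinite)
    (F : Finset ℕ) (hF : ∀ x ∈ F, RR d L x ∧ ¬ {y | RR d (x :: L) y}.Infinite) :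
    F.card ≤ L.length := by
  classical
  -- a large element
  have hfin : ((⋃ x ∈ F, {y | RR d (x :: L) y}) ∪ (⋃ x ∈ F, {y | ∃ u, u < y ∧
      d u y ∈ cols d (x :: L)}) ∪ Set.Iic (F.sup id)).Finite := by
    refine Set.Finite.union (Set.Finite.union ?_ ?_) (Set.finite_Iic _)
    · exact Set.Finite.biUnion (Finset.finite_toSet F) fun x hx => Set.not_infinite.1 (hF x hx).2
    · exact Set.Finite.biUnion (Finset.finite_toSet F) fun x _ => ex_finite hd _
  obtain ⟨y, hy, hny⟩ := hL.exists_notMem_finite hfin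
  have hy : RR d L y := hy
  have h1 : ∀ x ∈ F, ∃ a ∈ L, d a y = d x y := by
    intro x hx
    refine obstruct (hF x hx).1 hy ?_ ?_ ?_
    · by_contra hc
      apply hny
      refine Or.inr ?_
      have h2 : x ≤ F.sup id := Finset.le_sup (f := id) hx
      exact Set.mem_Iic.2 (by omega)
    · intro hc
      apply hny
      refine Or.inl (Or.inr ?_)
      rw [mem_iUnion₂]
      exact ⟨x, hx, hc⟩
    · intro hc
      apply hny
      refine Or.inl (Or.inl ?_)
      rw [mem_iUnion₂]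
      exact ⟨x, hx, hc⟩
  have hltF : ∀ x ∈ F, x < y := by
    intro x hx
    by_contra hc
    apply hny
    refine Or.inr ?_
    have h2 : x ≤ F.sup id := Finset.le_sup (f := id) hx
    exact Set.mem_Iic.2 (by omega)
  choose! f hf1 hf2 using h1
  have h2 : F.card ≤ L.toFinset.card := by
    refine Finset.card_le_card_of_injOn f ?_ ?_
    · intro x hx
      exact List.mem_toFinset.2 (hf1 x hx)
    · intro x hx x' hx' hxx
      have e1 := hf2 x hx
      have e2 := hf2 x' hx'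
      have hay : f x < y := hy.1 _ (hf1 x hx)
      have hax : f x < x := (hF x hx).1.1 _ (hf1 x hx)
      have hax' : f x' < x' := (hF x' hx').1.1 _ (hf1 x' hx')
      rw [← hxx] at e2 hax'
      rcases hd (f x) y x y x' y hay (hltF x hx) (hltF x' hx') e1 e2 with h | h | h
      · omega
      · omega
      · exact h.1
  exact h2.trans (List.toFinset_card_le L)

/-- the number of bits used at the first `n` stages -/
def bits (c n : ℕ) : ℕ := n * (n + c)

theorem bits_succ (c n : ℕ) : bits c (n + 1) = bits c n + (2 * n + 1 + c) := by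
  unfold bits
  ring

theorem bits_mono (c : ℕ) : Monotone (bits c) := by
  refine monotone_nat_of_le_succ fun n => ?_
  rw [bits_succ]
  omega

/-- the greedy construction -/
noncomputable def LL (d : ℕ → ℕ → ℕ) (c : ℕ) (Y : ℕ → Bool) : ℕ → List ℕ
  | 0 => []
  | n + 1 => Nat.nth (RR d (LL d c Y n)) (encode (pre Y (bits c (n + 1)))) :: LL d c Y n

theorem LL_length (d : ℕ → ℕ → ℕ) (c : ℕ) (Y : ℕ → Bool) (n : ℕ) : (LL d c Y n).length = n := by
  induction n with
  | zero => rfl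
  | succ n ih => rw [LL, List.length_cons, ih]

theorem LL_congr (d : ℕ → ℕ → ℕ) (c : ℕ) (Y Y' : ℕ → Bool) (n : ℕ)
    (h : pre Y (bits c n) = pre Y' (bits c n)) : LL d c Y n = LL d c Y' n := by
  induction n with
  | zero => rfl
  | succ n ih =>
    have h1 : pre Y (bits c n) = pre Y' (bits c n) := by
      rw [← pre_take Y (bits_mono c (Nat.le_succ n)), ← pre_take Y' (bits_mono c (Nat.le_succ n)),
        h]
    rw [LL, LL, ih h1, h]

/-- the construction gets stuck at stage `n` -/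
def Bad (d : ℕ → ℕ → ℕ) (c n : ℕ) : Set (ℕ → Bool) :=
  {Y | {y | RR d (LL d c Y n) y}.Infinite ∧ ¬ {y | RR d (LL d c Y (n + 1)) y}.Infinite}

theorem Bad_cyl {d : ℕ → ℕ → ℕ} (hd : Two d) (c n : ℕ) {σ : List Bool}
    (hσ : σ.length = bits c n) :
    coin (Bad d c n ∩ cyl σ) ≤ n * (2⁻¹ : ℝ≥0∞) ^ (bits c (n + 1)) := by
  classical
  rcases Set.eq_empty_or_nonempty (Bad d c n ∩ cyl σ) with h | ⟨Y0, hY0, hY0σ⟩
  · rw [h, measure_empty]
    exact zero_le
  · set L := LL d c Y0 n with hLdef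
    have hL : {y | RR d L y}.Infinite := hY0.1
    have hpre : pre Y0 (bits c n) = σ := by
      have : pre Y0 σ.length = σ := hY0σ
      rwa [hσ] at this
    let T : Finset (List Bool) := (finite_words (bits c (n + 1))).toFinset.filter fun τ =>
      RR d L (Nat.nth (RR d L) (encode τ)) ∧
      ¬ {y | RR d (Nat.nth (RR d L) (encode τ) :: L) y}.Infinite
    have hT : ∀ τ ∈ T, τ.length = bits c (n + 1) := by
      intro τ hτ
      simp only [T, Finset.mem_filter, Set.Finite.mem_toFinset, mem_ofPred_eq] at hτ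
      exact hτ.1
    have hcard : T.card ≤ n := by
      have h1 : (T.image fun τ => Nat.nth (RR d L) (encode τ)).card ≤ L.length := by
        refine bad_card hd hL _ ?_
        intro x hx
        obtain ⟨τ, hτ, rfl⟩ := Finset.mem_image.1 hx
        simp only [T, Finset.mem_filter] at hτ
        exact hτ.2
      rw [Finset.card_image_of_injective, LL_length] at h1
      · exact h1
      · intro a b hab
        exact encode_injective (Nat.nth_injective hL hab)
    have hsub : Bad d c n ∩ cyl σ ⊆ ⋃ τ ∈ T, cyl τ := by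
      rintro Y ⟨hY1, hY2⟩
      have hpreY : pre Y (bits c n) = σ := by
        have : pre Y σ.length = σ := hY2
        rwa [hσ] at this
      have hLY : LL d c Y n = L := LL_congr d c Y Y0 n (by rw [hpreY, hpre])
      rw [mem_iUnion₂]
      refine ⟨pre Y (bits c (n + 1)), ?_, pre_mem_cyl' Y _⟩
      simp only [T, Finset.mem_filter, Set.Finite.mem_toFinset, mem_ofPred_eq]
      refine ⟨pre_length _ _, ?_, ?_⟩
      · exact Nat.nth_mem_of_infinite hL _
      · have h2 := hY1.2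
        rw [LL, hLY] at h2
        exact h2
    refine (measure_mono hsub).trans ?_
    rw [coin_biUnion T hT]
    gcongr
where
  pre_mem_cyl' (X : ℕ → Bool) (n : ℕ) : X ∈ cyl (pre X n) := by
    show pre X (pre X n).length = pre X n
    rw [pre_length]

theorem words_total (m : ℕ) : ((finite_words m).toFinset.card : ℝ≥0∞) * (2⁻¹ : ℝ≥0∞) ^ m = 1 := by
  classical
  rw [← coin_biUnion (finite_words m).toFinset (t := m) fun τ hτ => by simpa using hτ]
  have h1 : (⋃ τ ∈ (finite_words m).toFinset, cyl τ) = Set.univ := by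
    rw [Set.eq_univ_iff_forall]
    intro X
    rw [mem_iUnion₂]
    refine ⟨pre X m, ?_, Bad_cyl.pre_mem_cyl' X m⟩
    rw [Set.Finite.mem_toFinset, mem_ofPred_eq]
    exact pre_length X m
  rw [h1, measure_univ]

theorem Bad_le {d : ℕ → ℕ → ℕ} (hd : Two d) (c n : ℕ) :
    coin (Bad d c n) ≤ (2⁻¹ : ℝ≥0∞) ^ n * (2⁻¹ : ℝ≥0∞) ^ c := by
  classical
  have hsub : Bad d c n ⊆ ⋃ σ ∈ (finite_words (bits c n)).toFinset, (Bad d c n ∩ cyl σ) := by
    intro X hX
    rw [mem_iUnion₂]
    refine ⟨pre X (bits c n), ?_, hX, Bad_cyl.pre_mem_cyl' X _⟩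
    rw [Set.Finite.mem_toFinset, mem_ofPred_eq]
    exact pre_length X _
  calc coin (Bad d c n) ≤ ∑ σ ∈ (finite_words (bits c n)).toFinset, coin (Bad d c n ∩ cyl σ) :=
        (measure_mono hsub).trans (measure_biUnion_finset_le _ _)
    _ ≤ ∑ σ ∈ (finite_words (bits c n)).toFinset, n * (2⁻¹ : ℝ≥0∞) ^ (bits c (n + 1)) := by
        refine Finset.sum_le_sum fun σ hσ => Bad_cyl hd c n ?_
        simpa using hσ
    _ = (((finite_words (bits c n)).toFinset.card : ℝ≥0∞) * (2⁻¹ : ℝ≥0∞) ^ (bits c n)) *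
          (n * ((2⁻¹ : ℝ≥0∞) ^ n * (2⁻¹ : ℝ≥0∞) ^ n * 2⁻¹ * (2⁻¹ : ℝ≥0∞) ^ c)) := by
        rw [Finset.sum_const, nsmul_eq_mul, bits_succ, pow_add, pow_add, pow_succ, two_mul,
          pow_add]
        ring
    _ = (n * (2⁻¹ : ℝ≥0∞) ^ n) * ((2⁻¹ : ℝ≥0∞) ^ n * (2⁻¹ : ℝ≥0∞) ^ c) * 2⁻¹ := by
        rw [words_total]
        ring
    _ ≤ 1 * ((2⁻¹ : ℝ≥0∞) ^ n * (2⁻¹ : ℝ≥0∞) ^ c) * 1 := by
        gcongr
        · rw [← ENNReal.inv_pow, ← div_eq_mul_inv]
          refine ENNReal.div_le_of_le_mul ?_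
          rw [one_mul]
          exact_mod_cast n.lt_two_pow_self.le
        · exact ENNReal.inv_le_one.2 (by norm_num)
    _ = _ := by rw [one_mul, mul_one]

theorem base_infinite (d : ℕ → ℕ → ℕ) : {y | RR d [] y}.Infinite := by
  have h : {y | RR d [] y} = Set.univ := by
    rw [Set.eq_univ_iff_forall]
    intro y
    refine ⟨by simp, ?_⟩
    intro a ha b hb u hu v hv hab
    simp only [List.mem_cons, List.not_mem_nil, or_false] at ha hb
    omega
  rw [h]
  exact Set.infinite_univ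

/-- For almost every sequence the construction never gets stuck, for some `c`. -/
theorem ae_good {d : ℕ → ℕ → ℕ} (hd : Two d) :
    ∀ᵐ Y ∂coin, ∃ c, ∀ n, {y | RR d (LL d c Y n) y}.Infinite := by
  rw [ae_iff]
  have h1 : ∀ c, coin {Y | ¬ ∃ c, ∀ n, {y | RR d (LL d c Y n) y}.Infinite} ≤
      2 * (2⁻¹ : ℝ≥0∞) ^ c := by
    intro c
    have hsub : {Y | ¬ ∃ c, ∀ n, {y | RR d (LL d c Y n) y}.Infinite} ⊆ ⋃ n, Bad d c n := by
      intro Y hY
      rw [mem_ofPred_eq] at hY
      by_contra hc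
      rw [mem_iUnion] at hc
      push Not at hc
      apply hY
      refine ⟨c, fun n => ?_⟩
      induction n with
      | zero => exact base_infinite d
      | succ n ih =>
        by_contra h2
        exact hc n ⟨ih, h2⟩
    calc coin {Y | ¬ ∃ c, ∀ n, {y | RR d (LL d c Y n) y}.Infinite}
        ≤ coin (⋃ n, Bad d c n) := measure_mono hsub
      _ ≤ ∑' n, coin (Bad d c n) := measure_iUnion_le _
      _ ≤ ∑' n : ℕ, (2⁻¹ : ℝ≥0∞) ^ n * (2⁻¹ : ℝ≥0∞) ^ c :=
          ENNReal.tsum_le_tsum fun n => Bad_le hd c n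
      _ = 2 * (2⁻¹ : ℝ≥0∞) ^ c := by
          rw [ENNReal.tsum_mul_right, ENNReal.tsum_geometric, ENNReal.one_sub_inv_two, inv_inv]
  have h2 : Filter.Tendsto (fun c : ℕ => 2 * (2⁻¹ : ℝ≥0∞) ^ c) Filter.atTop (nhds 0) := by
    have h3 : Filter.Tendsto (fun c : ℕ => (2⁻¹ : ℝ≥0∞) ^ c) Filter.atTop (nhds 0) :=
      ENNReal.tendsto_pow_atTop_nhds_zero_of_lt_one (by
        rw [ENNReal.inv_lt_one]
        norm_num)
    have h4 := ENNReal.Tendsto.const_mul (a := 2) h3 (Or.inr (by norm_num))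
    rwa [mul_zero] at h4
  exact le_antisymm (ge_of_tendsto' h2 h1) zero_le

section

variable {d : ℕ → ℕ → ℕ} {c : ℕ} {Y : ℕ → Bool} (h : ∀ n, {y | RR d (LL d c Y n) y}.Infinite)

/-- the `n`-th element -/
noncomputable def el (d : ℕ → ℕ → ℕ) (c : ℕ) (Y : ℕ → Bool) (n : ℕ) : ℕ :=
  Nat.nth (RR d (LL d c Y n)) (encode (pre Y (bits c (n + 1))))

theorem LL_succ (d : ℕ → ℕ → ℕ) (c : ℕ) (Y : ℕ → Bool) (n : ℕ) :
    LL d c Y (n + 1) = el d c Y n :: LL d c Y n := rfl

include h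

theorem el_RR (n : ℕ) : RR d (LL d c Y n) (el d c Y n) :=
  Nat.nth_mem_of_infinite (h n) _

omit h in
theorem mem_LL_iff {n x : ℕ} : x ∈ LL d c Y n ↔ ∃ i < n, x = el d c Y i := by
  induction n with
  | zero => simp [LL]
  | succ n ih =>
    rw [LL_succ, List.mem_cons, ih]
    constructor
    · rintro (rfl | ⟨i, hi, rfl⟩)
      · exact ⟨n, by omega, rfl⟩
      · exact ⟨i, by omega, rfl⟩
    · rintro ⟨i, hi, rfl⟩
      rcases Nat.lt_succ_iff_lt_or_eq.1 hi with h1 | rfl
      · exact Or.inr ⟨i, h1, rfl⟩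
      · exact Or.inl rfl

theorem el_strictMono : StrictMono (el d c Y) := by
  refine strictMono_nat_of_lt_succ fun n => ?_
  exact (el_RR h (n + 1)).1 _ (by rw [LL_succ]; exact List.mem_cons_self ..)

theorem rainb_range {x y u v : ℕ} (hx : x ∈ range (el d c Y)) (hy : y ∈ range (el d c Y))
    (hu : u ∈ range (el d c Y)) (hv : v ∈ range (el d c Y)) (hxy : x < y) (huv : u < v)
    (he : d x y = d u v) : x = u ∧ y = v := by
  obtain ⟨i, rfl⟩ := hx
  obtain ⟨j, rfl⟩ := hy
  obtain ⟨k, rfl⟩ := hu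
  obtain ⟨l, rfl⟩ := hv
  set n := max (max i j) (max k l) + 1 with hn
  have hR : Rainb d (LL d c Y n) := (el_RR h n).rainb
  exact hR _ (mem_LL_iff.2 ⟨i, by omega, rfl⟩) _ (mem_LL_iff.2 ⟨j, by omega, rfl⟩)
    _ (mem_LL_iff.2 ⟨k, by omega, rfl⟩) _ (mem_LL_iff.2 ⟨l, by omega, rfl⟩) hxy huv he

theorem mem_range_iff {x : ℕ} : x ∈ range (el d c Y) ↔ x ∈ LL d c Y (x + 1) := by
  rw [mem_LL_iff]
  constructor
  · rintro ⟨i, rfl⟩
    have h1 : i ≤ el d c Y i := (el_strictMono h).le_apply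
    exact ⟨i, by omega, rfl⟩
  · rintro ⟨i, _, rfl⟩
    exact ⟨i, rfl⟩

end

end Pool.Agent.R623.Rain
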