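import Pool.Agent.Helper446.Oracle
import Pool.Agent.R623.C.Meas

/-!
# Word functions and Turing reducibility
-/

set_option autoImplicit false

namespace Pool.Agent.R623.HTR

open Encodable Pool.Agent.Helper446 Pool.Agent.Helper446.Defs Pool.Agent.Helper446.RE
  Pool.Agent.Helper446.Oracle
open Pool.Agent.Results.MP_743c94_lc.Full (pre pre_length pre_take pre_getD Computes
  ComputableFrom computableFrom_of_turing)

/-- the set with characteristic function `X` -/
def st (X : ℕ → Bool) : Set ℕ := {n | X n = true}

theorem chi_st (X : ℕ → Bool) : chi (st X) = fun n => Part.some (X n).toNat := by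
  funext n
  unfold chi chiN
  congr 1
  cases h : X n
  · rw [if_neg (by simp [st, h])]; rfl
  · rw [if_pos (by simp [st, h])]; rfl

/-- the word `σ` is an initial segment of `X` -/
def Seg (X : ℕ → Bool) (σ : List Bool) : Prop := pre X σ.length = σ

theorem seg_pre (X : ℕ → Bool) (n : ℕ) : Seg X (pre X n) := by
  unfold Seg
  rw [pre_length]

section

variable {α : Type*} [Primcodable α]

theorem re_seg {X : ℕ → Bool} {f : α → List Bool} (hf : Computable f) :
    REIn (st X) fun a => Seg X (f a) := by
  have h1 : REIn (st X) fun a => ∀ i < (f a).length,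
      ((f a).getD i false = true ∧ i ∈ st X) ∨ ((f a).getD i false = false ∧ i ∉ st X) := by
    have hg : Computable fun x : α × ℕ => (f x.1).getD x.2 false := by
      have := (Primrec.list_getD false).to_comp
      exact this.comp (hf.comp Computable.fst) Computable.snd
    refine REIn.all_lt (S := fun a i => ((f a).getD i false = true ∧ i ∈ st X) ∨
      ((f a).getD i false = false ∧ i ∉ st X)) ?_ ?_
    · refine REIn.or ?_ ?_
      · exact REIn.and (REIn.of_re (RE.eq hg (by fun_prop))) (REIn.mem (by fun_prop))
      · exact REIn.and (REIn.of_re (RE.eq hg (by fun_prop))) (REIn.not_mem (by fun_prop))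
    · exact Computable.list_length.comp hf
  refine h1.of_eq fun a => ?_
  unfold Seg
  rw [pre_eq_iff]
  refine forall_congr' fun i => forall_congr' fun _ => ?_
  unfold st
  rw [Set.mem_ofPred_eq]
  cases X i <;> cases (f a).getD i false <;> simp

theorem re_of_word {X : ℕ → Bool} {P : List Bool → α → Prop}
    (hP : REPred fun x : List Bool × α => P x.1 x.2) :
    REIn (st X) fun a => ∃ k, P (pre X k) a := by
  have h1 : REIn (st X) fun a => ∃ σ : List Bool, Seg X σ ∧ P σ a := by
    refine REIn.ex (S := fun a (σ : List Bool) => Seg X σ ∧ P σ a) ?_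
    refine REIn.and (re_seg (f := fun x : α × List Bool => x.2) (by fun_prop)) ?_
    exact REIn.of_re (RE.comp hP (f := fun x : α × List Bool => (x.2, x.1)) (by fun_prop))
  refine h1.of_eq fun a => ?_
  constructor
  · rintro ⟨σ, h2, h3⟩
    refine ⟨σ.length, ?_⟩
    unfold Seg at h2
    rw [h2]
    exact h3
  · rintro ⟨k, hk⟩
    exact ⟨pre X k, seg_pre X k, hk⟩

end

/-- A function given by a computable word function is Turing reducible to the oracle. -/
theorem turing_of_word {X : ℕ → Bool} {f : ℕ → ℕ} {Φ : List Bool → ℕ → Option ℕ}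
    (hΦ : Computable₂ Φ) (h1 : ∀ n, ∃ k, Φ (pre X k) n = some (f n))
    (h2 : ∀ n k m, Φ (pre X k) n = some m → m = f n) :
    TuringReducible (fun n => Part.some (f n)) (fun n => Part.some (X n).toNat) := by
  rw [← chi_st, turingReducible_fun_iff]
  have h3 : REPred fun x : List Bool × ℕ × ℕ => Φ x.1 x.2.1 = some x.2.2 :=
    RE.eq (hΦ.comp Computable.fst (Computable.fst.comp Computable.snd)) (by fun_prop)
  refine (re_of_word (P := fun σ (p : ℕ × ℕ) => Φ σ p.1 = some p.2) h3).of_eq fun p => ?_
  constructor
  · rintro ⟨k, hk⟩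
    exact (h2 _ _ _ hk).symm
  · intro h
    obtain ⟨k, hk⟩ := h1 p.1
    exact ⟨k, by rw [hk, h]⟩

end Pool.Agent.R623.HTR
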