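import Pool.Agent.R623.C.Rain
import Pool.Agent.R623.C.Dec
import Pool.Agent.R623.C.Tur

/-!
# The rainbow set is computable from the colouring and the random sequence
-/

set_option autoImplicit false

namespace Pool.Agent.R623.Rain

open Encodable MeasureTheory Set
open Pool.Agent.Helper446 Pool.Agent.Helper446.Defs Pool.Agent.Helper446.RE
  Pool.Agent.Helper446.Oracle
open Pool.Agent.R623.HTR Pool.Agent.R623.Dec
open Pool.Agent.Results.MP_743c94_lc.Full (pre pre_length pre_take join)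

section count

variable {α : Type*} [Primcodable α] {A : Set ℕ}

theorem computable_getD {γ : Type*} [Primcodable γ] {f : γ → List ℕ} {g : γ → ℕ}
    (hf : Computable f) (hg : Computable g) : Computable fun x => (f x).getD (g x) 0 :=
  ((Primrec.list_getD 0).to_comp).comp hf hg

open Classical in
theorem re_count {S : α → ℕ → Prop} (hS : DecIn A fun x : α × ℕ => S x.1 x.2) :
    REIn A fun p : (α × ℕ) × ℕ => Nat.count (S p.1.1) p.1.2 = p.2 := by
  have h1 : REIn A fun p : (α × ℕ) × ℕ => ∃ K : List ℕ, K.getD 0 0 = 0 ∧ K.getD p.1.2 0 = p.2 ∧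
      ∀ i < p.1.2, (S p.1.1 i ∧ K.getD (i + 1) 0 = K.getD i 0 + 1) ∨
        (¬ S p.1.1 i ∧ K.getD (i + 1) 0 = K.getD i 0) := by
    refine REIn.ex (S := fun (p : (α × ℕ) × ℕ) (K : List ℕ) => K.getD 0 0 = 0 ∧
      K.getD p.1.2 0 = p.2 ∧
      ∀ i < p.1.2, (S p.1.1 i ∧ K.getD (i + 1) 0 = K.getD i 0 + 1) ∨
        (¬ S p.1.1 i ∧ K.getD (i + 1) 0 = K.getD i 0)) ?_
    refine REIn.and (REIn.of_re (RE.eq (computable_getD (by fun_prop) (by fun_prop))
      (by fun_prop))) (REIn.and (REIn.of_re (RE.eq (computable_getD (by fun_prop) (by fun_prop))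
      (by fun_prop))) ?_)
    refine REIn.all_lt (S := fun (q : ((α × ℕ) × ℕ) × List ℕ) (i : ℕ) =>
      (S q.1.1.1 i ∧ q.2.getD (i + 1) 0 = q.2.getD i 0 + 1) ∨
        (¬ S q.1.1.1 i ∧ q.2.getD (i + 1) 0 = q.2.getD i 0)) ?_ (by fun_prop)
    have e1 : Computable fun z : (((α × ℕ) × ℕ) × List ℕ) × ℕ => z.1.2.getD (z.2 + 1) 0 :=
      computable_getD (by fun_prop) (by fun_prop)
    have e2 : Computable fun z : (((α × ℕ) × ℕ) × List ℕ) × ℕ => z.1.2.getD z.2 0 :=
      computable_getD (by fun_prop) (by fun_prop)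
    have e3 : Computable fun z : (((α × ℕ) × ℕ) × List ℕ) × ℕ => z.1.2.getD z.2 0 + 1 :=
      Computable.succ.comp e2
    have e4 : Computable fun z : (((α × ℕ) × ℕ) × List ℕ) × ℕ => (z.1.1.1.1, z.2) := by fun_prop
    refine REIn.or (REIn.and (hS.1.comp e4) (REIn.of_re (RE.eq e1 e3)))
      (REIn.and (hS.2.comp e4) (REIn.of_re (RE.eq e1 e2)))
  refine h1.of_eq fun p => ?_
  constructor
  · rintro ⟨K, h2, h3, h4⟩
    have h5 : ∀ i ≤ p.1.2, K.getD i 0 = Nat.count (S p.1.1) i := by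
      intro i hi
      induction i with
      | zero => rw [h2, Nat.count_zero]
      | succ i ih =>
        rw [Nat.count_succ, ← ih (by omega)]
        rcases h4 i (by omega) with ⟨h6, h7⟩ | ⟨h6, h7⟩
        · rw [if_pos h6, h7]
        · rw [if_neg h6, h7, add_zero]
    rw [← h5 _ le_rfl, h3]
  · intro h2
    have hK : ∀ i ≤ p.1.2, ((List.range (p.1.2 + 1)).map (Nat.count (S p.1.1))).getD i 0 =
        Nat.count (S p.1.1) i := by
      intro i hi
      rw [List.getD_eq_getElem _ _ (by simpa using (by omega : i < p.1.2 + 1))]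
      simp
    refine ⟨(List.range (p.1.2 + 1)).map (Nat.count (S p.1.1)), ?_, ?_, ?_⟩
    · rw [hK 0 (by omega), Nat.count_zero]
    · rw [hK _ le_rfl, h2]
    · intro i hi
      rw [hK i (by omega), hK (i + 1) (by omega), Nat.count_succ]
      by_cases h6 : S p.1.1 i
      · left
        rw [if_pos h6]
        exact ⟨h6, rfl⟩
      · right
        rw [if_neg h6]
        exact ⟨h6, rfl⟩

end count

section

variable {A : Set ℕ} {d : ℕ → ℕ → ℕ}

theorem dec_rainb (hd : REIn A fun p : (ℕ × ℕ) × ℕ => d p.1.1 p.1.2 = p.2) {α : Type*}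
    [Primcodable α] {l : α → List ℕ} (hl : Computable l) :
    DecIn A fun a : α => Rainb d (l a) := by
  unfold Rainb
  refine DecIn.all_mem (S := fun (a : α) (x : ℕ) => ∀ y ∈ l a, ∀ u ∈ l a, ∀ v ∈ l a, x < y →
    u < v → d x y = d u v → x = u ∧ y = v) ?_ hl
  refine DecIn.all_mem (S := fun (a : α × ℕ) (y : ℕ) => ∀ u ∈ l a.1, ∀ v ∈ l a.1, a.2 < y →
    u < v → d a.2 y = d u v → a.2 = u ∧ y = v) ?_ (l := fun a : α × ℕ => l a.1) (by fun_prop)
  refine DecIn.all_mem (S := fun (a : (α × ℕ) × ℕ) (u : ℕ) => ∀ v ∈ l a.1.1, a.1.2 < a.2 →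
    u < v → d a.1.2 a.2 = d u v → a.1.2 = u ∧ a.2 = v) ?_ (l := fun a : (α × ℕ) × ℕ => l a.1.1)
    (by fun_prop)
  refine DecIn.all_mem (S := fun (a : ((α × ℕ) × ℕ) × ℕ) (v : ℕ) => a.1.1.2 < a.1.2 →
    a.2 < v → d a.1.1.2 a.1.2 = d a.2 v → a.1.1.2 = a.2 ∧ a.1.2 = v) ?_
    (l := fun a : ((α × ℕ) × ℕ) × ℕ => l a.1.1.1) (by fun_prop)
  refine DecIn.imp (DecIn.lt (by fun_prop) (by fun_prop)) ?_
  refine DecIn.imp (DecIn.lt (by fun_prop) (by fun_prop)) ?_
  refine DecIn.imp ?_ (DecIn.and (DecIn.eq (by fun_prop) (by fun_prop))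
    (DecIn.eq (by fun_prop) (by fun_prop)))
  exact dec_eq_val (f := fun p : ℕ × ℕ => d p.1 p.2) (hd.comp (by fun_prop))
    (g := fun z : (((α × ℕ) × ℕ) × ℕ) × ℕ => (z.1.1.1.2, z.1.1.2))
    (k := fun z : (((α × ℕ) × ℕ) × ℕ) × ℕ => (z.1.2, z.2)) (by fun_prop) (by fun_prop)

theorem dec_RR (hd : REIn A fun p : (ℕ × ℕ) × ℕ => d p.1.1 p.1.2 = p.2) :
    DecIn A fun p : List ℕ × ℕ => RR d p.1 p.2 := by
  unfold RR
  refine DecIn.and ?_ (dec_rainb hd ?_)
  · exact DecIn.all_mem (S := fun (p : List ℕ × ℕ) (z : ℕ) => z < p.2)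
      (DecIn.lt (by fun_prop) (by fun_prop)) (by fun_prop)
  · exact Computable.list_cons.comp Computable.snd Computable.fst

end

open Classical in
/-- one step of the construction -/
def Stp (d : ℕ → ℕ → ℕ) (c : ℕ) (Y : ℕ → Bool) (L : List ℕ) (x : ℕ) : Prop :=
  RR d L x ∧ ∃ σ : List Bool, Seg Y σ ∧ σ.length = bits c (L.length + 1) ∧
    Nat.count (RR d L) x = encode σ

theorem stp_iff {d : ℕ → ℕ → ℕ} {c : ℕ} {Y : ℕ → Bool} {L : List ℕ} {x : ℕ}
    (hL : {y | RR d L y}.Infinite) :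
    Stp d c Y L x ↔ x = Nat.nth (RR d L) (encode (pre Y (bits c (L.length + 1)))) := by
  classical
  unfold Stp
  constructor
  · rintro ⟨h1, σ, h2, h3, h4⟩
    have h5 : pre Y (bits c (L.length + 1)) = σ := by
      unfold Seg at h2
      rw [h3] at h2
      exact h2
    rw [h5, ← h4]
    have := Nat.nth_count h1
    convert this.symm
  · rintro rfl
    refine ⟨Nat.nth_mem_of_infinite hL _, pre Y (bits c (L.length + 1)), seg_pre _ _,
      pre_length _ _, ?_⟩
    have := Nat.count_nth_of_infinite hL (encode (pre Y (bits c (L.length + 1))))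
    convert this

theorem computable_bits (c : ℕ) : Computable (bits c) := by
  unfold bits
  exact (Primrec.nat_mul.comp Primrec.id (Primrec.nat_add.comp Primrec.id
    (Primrec.const c))).to_comp

theorem re_stp {A : Set ℕ} {d : ℕ → ℕ → ℕ} {Y : ℕ → Bool} (hY : Le (st Y) A)
    (hd : REIn A fun p : (ℕ × ℕ) × ℕ => d p.1.1 p.1.2 = p.2) (c : ℕ) :
    REIn A fun p : List ℕ × ℕ => Stp d c Y p.1 p.2 := by
  classical
  unfold Stp
  refine REIn.and (dec_RR hd).1 ?_
  refine REIn.ex (S := fun (p : List ℕ × ℕ) (σ : List Bool) => Seg Y σ ∧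
    σ.length = bits c (p.1.length + 1) ∧
    @Nat.count (RR d p.1) (fun a => Classical.propDecidable _) p.2 = encode σ) ?_
  refine REIn.and ?_ (REIn.and ?_ ?_)
  · exact REIn.trans hY (re_seg (by fun_prop))
  · refine REIn.of_re (RE.eq (by fun_prop) ?_)
    exact (computable_bits c).comp (Computable.succ.comp (Computable.list_length.comp
      (Computable.fst.comp Computable.fst)))
  · have h1 := re_count (dec_RR hd)
    refine (h1.comp (f := fun z : (List ℕ × ℕ) × List Bool => (z.1, encode z.2)) ?_).of_eq ?_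
    · exact Computable.fst.pair (Computable.encode.comp Computable.snd)
    · intro z
      rfl

/-- traces -/
def Tr (d : ℕ → ℕ → ℕ) (c : ℕ) (Y : ℕ → Bool) (L : List ℕ) : Prop :=
  ∀ i < L.length, Stp d c Y (L.drop (i + 1)) (L.getD i 0)

theorem tr_cons {d : ℕ → ℕ → ℕ} {c : ℕ} {Y : ℕ → Bool} {L : List ℕ} {x : ℕ} :
    Tr d c Y (x :: L) ↔ Stp d c Y L x ∧ Tr d c Y L := by
  unfold Tr
  constructor
  · intro h
    refine ⟨h 0 (by simp), fun i hi => ?_⟩
    have := h (i + 1) (by simpa using hi)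
    simpa using this
  · rintro ⟨h1, h2⟩ i hi
    cases i with
    | zero => simpa using h1
    | succ i =>
      have := h2 i (by simpa using hi)
      simpa using this

theorem tr_iff {d : ℕ → ℕ → ℕ} {c : ℕ} {Y : ℕ → Bool}
    (h : ∀ n, {y | RR d (LL d c Y n) y}.Infinite) (L : List ℕ) :
    Tr d c Y L ↔ L = LL d c Y L.length := by
  induction L with
  | nil =>
    constructor
    · intro _; rfl
    · intro _ i hi
      simp at hi
  | cons x L ih =>
    rw [tr_cons, ih, List.length_cons, LL_succ, List.cons.injEq]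
    constructor
    · rintro ⟨h1, h2⟩
      refine ⟨?_, h2⟩
      rw [stp_iff (by rw [h2]; exact h _)] at h1
      rw [h1]
      unfold el
      rw [← h2]
    · rintro ⟨h1, h2⟩
      refine ⟨?_, h2⟩
      rw [stp_iff (by rw [h2]; exact h _), h1]
      unfold el
      rw [← h2]

theorem re_tr {A : Set ℕ} {d : ℕ → ℕ → ℕ} {Y : ℕ → Bool} (hY : Le (st Y) A)
    (hd : REIn A fun p : (ℕ × ℕ) × ℕ => d p.1.1 p.1.2 = p.2) (c : ℕ) {α : Type*} [Primcodable α]
    {l : α → List ℕ} (hl : Computable l) : REIn A fun a => Tr d c Y (l a) := by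
  unfold Tr
  refine REIn.all_lt (S := fun (a : α) (i : ℕ) => Stp d c Y ((l a).drop (i + 1))
    ((l a).getD i 0)) ?_ (Computable.list_length.comp hl)
  refine (re_stp hY hd c).comp (f := fun z : α × ℕ => ((l z.1).drop (z.2 + 1),
    (l z.1).getD z.2 0)) ?_
  refine Computable.pair ?_ (computable_getD (hl.comp Computable.fst) Computable.snd)
  have h1 : Computable₂ fun (n : ℕ) (L : List ℕ) => L.drop n := Primrec.list_drop.to_comp
  exact h1.comp (Computable.succ.comp Computable.snd) (hl.comp Computable.fst)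

theorem le_range {A : Set ℕ} {d : ℕ → ℕ → ℕ} {Y : ℕ → Bool} (hY : Le (st Y) A)
    (hd : REIn A fun p : (ℕ × ℕ) × ℕ => d p.1.1 p.1.2 = p.2) {c : ℕ}
    (h : ∀ n, {y | RR d (LL d c Y n) y}.Infinite) : Le (range (el d c Y)) A := by
  have hT : REIn A fun p : ℕ × List ℕ => Tr d c Y p.2 := re_tr hY hd c Computable.snd
  have hE : REIn A fun p : ℕ × List ℕ => p.2.length = p.1 + 1 :=
    REIn.of_re (RE.eq (by fun_prop) (by fun_prop))
  constructor
  · have h1 : REIn A fun x : ℕ => ∃ L : List ℕ, Tr d c Y L ∧ L.length = x + 1 ∧ x ∈ L := by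
      refine REIn.ex (S := fun (x : ℕ) (L : List ℕ) => Tr d c Y L ∧ L.length = x + 1 ∧ x ∈ L) ?_
      exact REIn.and hT (REIn.and hE (REIn.of_re (RE.mem_list (by fun_prop) (by fun_prop))))
    refine h1.of_eq fun x => ?_
    constructor
    · rintro ⟨L, h2, h3, h4⟩
      rw [tr_iff h, h3] at h2
      rw [h2] at h4
      exact (mem_range_iff h).2 h4
    · intro hx
      refine ⟨LL d c Y (x + 1), ?_, LL_length d c Y _, (mem_range_iff h).1 hx⟩
      rw [tr_iff h, LL_length]
  · have h1 : REIn A fun x : ℕ => ∃ L : List ℕ, Tr d c Y L ∧ L.length = x + 1 ∧ x ∉ L := by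
      refine REIn.ex (S := fun (x : ℕ) (L : List ℕ) => Tr d c Y L ∧ L.length = x + 1 ∧ x ∉ L) ?_
      exact REIn.and hT (REIn.and hE (REIn.of_re (RE.not_mem_list (by fun_prop) (by fun_prop))))
    refine h1.of_eq fun x => ?_
    constructor
    · rintro ⟨L, h2, h3, h4⟩ h5
      rw [tr_iff h, h3] at h2
      rw [h2] at h4
      exact h4 ((mem_range_iff h).1 h5)
    · intro hx
      refine ⟨LL d c Y (x + 1), ?_, LL_length d c Y _, fun h2 => hx ((mem_range_iff h).2 h2)⟩
      rw [tr_iff h, LL_length]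

end Pool.Agent.R623.Rain
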