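import Mathlib

/-!
# Colourings by rotations

For a finite family of sets of thirty natural numbers there is a periodic colouring for which at
least three quarters of the sets of the family have no monochromatic translate.
-/

set_option autoImplicit false

namespace Pool.Agent.R623.HTR

open Finset

/-- the number of elements of the sets -/
@[irreducible] def KK : ℕ := 30

/-- the number of cells -/
@[irreducible] def MM : ℕ := 43200

theorem KK_eq : KK = 30 := by unfold KK; rfl

theorem MM_eq : MM = 43200 := by unfold MM; rfl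

theorem MM_pos : 0 < MM := by rw [MM_eq]; norm_num

/-- the cell of `x` under the rotation by `β` -/
def cell (R β x : ℕ) : ℕ := (x * β) % (R * MM) / R

/-- the colouring given by the rotation by `β` and the set `h` of cells -/
def vv (R β : ℕ) (h : Finset ℕ) (x : ℕ) : Bool := decide (cell R β x ∈ h)

/-- `v` is constant on some translate of `B` -/
def Mono (v : ℕ → Bool) (B : Finset ℕ) : Prop := ∃ t, ∃ c : Bool, ∀ b ∈ B, v (t + b) = c

/-- the multiple `d * β` is close to `0` modulo `Q` -/
def Close (R d β : ℕ) : Prop := (d * β) % (R * MM) < R ∨ R * MM < (d * β) % (R * MM) + R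

instance (R d β : ℕ) : Decidable (Close R d β) := by unfold Close; infer_instance

theorem card_interval {Q R d k : ℕ} (hd : 0 < d) :
    ((range Q).filter fun β => k * Q < d * β + R ∧ d * β < k * Q + R).card ≤ 2 * R / d + 1 := by
  set S := (range Q).filter fun β => k * Q < d * β + R ∧ d * β < k * Q + R with hS
  rcases S.eq_empty_or_nonempty with h | h
  · rw [h]; simp
  · have ha := S.min'_mem h
    set a := S.min' h with hadef
    have hsub : S ⊆ Icc a (a + 2 * R / d) := by
      intro β hβ
      have hle : a ≤ β := S.min'_le β hβ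
      rw [hS, mem_filter] at ha hβ
      rw [mem_Icc]
      refine ⟨hle, ?_⟩
      obtain ⟨e, rfl⟩ := Nat.exists_eq_add_of_le hle
      have h1 := ha.2.1
      have h2 := hβ.2.2
      have h3 : e ≤ 2 * R / d := by
        rw [Nat.le_div_iff_mul_le hd]
        rw [mul_add] at h2
        have h4 : e * d = d * e := mul_comm _ _
        rw [h4]
        omega
      omega
    refine (card_le_card hsub).trans ?_
    rw [Nat.card_Icc]
    generalize 2 * R / d = w
    omega

theorem card_close {R d : ℕ} (hd : 0 < d) (hdR : d ≤ R) :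
    ((range (R * MM)).filter fun β => Close R d β).card ≤ 6 * R := by
  have hR : 0 < R := lt_of_lt_of_le hd hdR
  set Q := R * MM with hQ
  have hQ0 : 0 < Q := by rw [hQ]; exact Nat.mul_pos hR MM_pos
  have hsub : ((range Q).filter fun β => Close R d β) ⊆
      (range (d + 1)).biUnion fun k =>
        (range Q).filter fun β => k * Q < d * β + R ∧ d * β < k * Q + R := by
    intro β hβ
    rw [mem_filter, mem_range] at hβ
    obtain ⟨hβQ, hc⟩ := hβ
    rw [mem_biUnion]
    have h1 : (d * β) % Q + Q * (d * β / Q) = d * β := Nat.mod_add_div _ _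
    have h2 : d * β / Q < d := by
      rw [Nat.div_lt_iff_lt_mul hQ0]
      exact Nat.mul_lt_mul_of_pos_left hβQ hd
    have h3 : Q * (d * β / Q) = (d * β / Q) * Q := mul_comm _ _
    unfold Close at hc
    rw [← hQ] at hc
    rcases hc with hc | hc
    · refine ⟨d * β / Q, ?_, ?_⟩
      · rw [mem_range]; omega
      · rw [mem_filter, mem_range]
        refine ⟨hβQ, ?_, ?_⟩
        · omega
        · omega
    · have h4 : (d * β) % Q < Q := Nat.mod_lt _ hQ0
      refine ⟨d * β / Q + 1, ?_, ?_⟩
      · rw [mem_range]; omega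
      · rw [mem_filter, mem_range]
        have h5 : (d * β / Q + 1) * Q = (d * β / Q) * Q + Q := by ring
        refine ⟨hβQ, ?_, ?_⟩
        · omega
        · omega
  refine (card_le_card hsub).trans (card_biUnion_le.trans ?_)
  refine (sum_le_card_nsmul _ _ (2 * R / d + 1) fun k _ => card_interval hd).trans ?_
  rw [card_range, smul_eq_mul]
  have h1 : d * (2 * R / d) ≤ 2 * R := Nat.mul_div_le _ _
  have h2 : 2 * R / d ≤ d * (2 * R / d) := Nat.le_mul_of_pos_left _ hd
  have h3 : (d + 1) * (2 * R / d + 1) = d * (2 * R / d) + 2 * R / d + d + 1 := by ring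
  rw [h3]
  omega

/-- all differences of elements of `B` are sent away from `0` -/
def Sepd (R : ℕ) (B : Finset ℕ) (β : ℕ) : Prop := ∀ b ∈ B, ∀ d ∈ Finset.range R, 0 < d →
  b + d ∈ B → ¬ Close R d β

theorem cell_ne {R β : ℕ} {B : Finset ℕ} (hB : ∀ b ∈ B, b < R) (hs : Sepd R B β) (t : ℕ)
    {b b' : ℕ} (hb : b ∈ B) (hb' : b' ∈ B) (hlt : b < b') :
    cell R β (t + b) ≠ cell R β (t + b') := by
  obtain ⟨d, rfl⟩ := Nat.exists_eq_add_of_lt hlt
  have hb'' : b + (d + 1) ∈ B := by rw [← add_assoc]; exact hb'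
  have hR : 0 < R := lt_of_le_of_lt (Nat.zero_le _) (hB b hb)
  have hdR : d + 1 < R := by have := hB _ hb''; omega
  have hc := hs b hb (d + 1) (Finset.mem_range.2 hdR) (Nat.succ_pos d) hb''
  unfold Close at hc
  push Not at hc
  obtain ⟨h1, h2⟩ := hc
  unfold cell
  set Q := R * MM with hQ
  have hQ0 : 0 < Q := by rw [hQ]; exact Nat.mul_pos hR MM_pos
  set p := ((t + b) * β) % Q with hp
  set δ := ((d + 1) * β) % Q with hδ
  have hp' : ((t + (b + d + 1)) * β) % Q = (p + δ) % Q := by
    have : (t + (b + d + 1)) * β = (t + b) * β + (d + 1) * β := by ring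
    rw [this, Nat.add_mod]
  rw [hp']
  have hpQ : p < Q := Nat.mod_lt _ hQ0
  have hδQ : δ < Q := Nat.mod_lt _ hQ0
  intro heq
  have e1 := Nat.div_add_mod p R
  have e2 := Nat.mod_lt p hR
  have e3 := Nat.div_add_mod ((p + δ) % Q) R
  have e4 := Nat.mod_lt ((p + δ) % Q) hR
  rw [← heq] at e3
  rcases Nat.lt_or_ge (p + δ) Q with h | h
  · rw [Nat.mod_eq_of_lt h] at e3 e4
    omega
  · have h5 : (p + δ) % Q = p + δ - Q := by
      rw [Nat.mod_eq_sub_mod h, Nat.mod_eq_of_lt (by omega)]
    rw [h5] at e3 e4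
    omega

/-- the possible patterns -/
def pat (R β τ : ℕ) : Option ℕ → ℕ → ℕ
  | none, b => (τ + (b * β) % (R * MM) / R) % MM
  | some b0, b => (τ + (b * β) % (R * MM) / R +
      if (b0 * β) % (R * MM) % R ≤ (b * β) % (R * MM) % R then 1 else 0) % MM

theorem cell_pat {R β : ℕ} (hR : 0 < R) (B : Finset ℕ) (t : ℕ) :
    ∃ τ < MM, ∃ o ∈ insertNone B, ∀ b ∈ B, cell R β (t + b) = pat R β τ o b := by
  classical
  have hM : 0 < MM := MM_pos
  set Q := R * MM with hQ
  have hQ0 : 0 < Q := Nat.mul_pos hR hM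
  set T := (t * β) % Q with hT
  have hTQ : T < Q := Nat.mod_lt _ hQ0
  have hcell : ∀ b, cell R β (t + b) =
      (T / R + (b * β) % Q / R + if R ≤ T % R + (b * β) % Q % R then 1 else 0) % MM := by
    intro b
    unfold cell
    rw [← hQ]
    have h1 : ((t + b) * β) % Q = (T + (b * β) % Q) % Q := by rw [add_mul, Nat.add_mod]
    rw [h1, hQ, Nat.mod_mul_right_div_self, ← hQ]
    congr 1
    rw [Nat.add_div hR]
  have hτ : T / R < MM := by
    rw [Nat.div_lt_iff_lt_mul hR, mul_comm]
    exact hTQ
  refine ⟨T / R, hτ, ?_⟩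
  set U := B.filter fun b => R ≤ T % R + (b * β) % Q % R with hU
  rcases U.eq_empty_or_nonempty with h | h
  · refine ⟨none, none_mem_insertNone, fun b hb => ?_⟩
    rw [hcell b, if_neg]
    · rw [add_zero]
      rfl
    · intro hc
      have : b ∈ U := by rw [hU, mem_filter]; exact ⟨hb, hc⟩
      rw [h] at this
      simp at this
  · obtain ⟨b0, hb0, hmin⟩ := U.exists_min_image (fun b => (b * β) % Q % R) h
    rw [hU, mem_filter] at hb0
    refine ⟨some b0, some_mem_insertNone.2 hb0.1, fun b hb => ?_⟩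
    rw [hcell b]
    unfold pat
    rw [← hQ]
    have hiff : (R ≤ T % R + (b * β) % Q % R) ↔ (b0 * β) % Q % R ≤ (b * β) % Q % R := by
      constructor
      · intro hc
        apply hmin
        rw [hU, mem_filter]
        exact ⟨hb, hc⟩
      · intro hc
        have := hb0.2
        omega
    simp only [hiff]

theorem card_mono_pattern {S : Finset ℕ} {M : ℕ} (hS : S ⊆ range M) :
    ((range M).powerset.filter fun h => S ⊆ h ∨ Disjoint S h).card ≤ 2 * 2 ^ (M - S.card) := by
  classical
  have h1 : ((range M).powerset.filter fun h => S ⊆ h ∨ Disjoint S h) ⊆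
      Icc S (range M) ∪ (range M \ S).powerset := by
    intro h hh
    rw [mem_filter, mem_powerset] at hh
    rw [mem_union]
    rcases hh.2 with h2 | h2
    · left
      rw [mem_Icc]
      exact ⟨h2, hh.1⟩
    · right
      rw [mem_powerset]
      intro x hx
      rw [mem_sdiff]
      exact ⟨hh.1 hx, fun hxS => (Finset.disjoint_left.1 h2 hxS) hx⟩
  refine (card_le_card h1).trans ((card_union_le _ _).trans ?_)
  rw [card_Icc_finset hS, card_powerset, card_sdiff_of_subset hS, card_range]
  omega

theorem card_bad_h {R β : ℕ} (hR : 0 < R) {B : Finset ℕ} (hB : ∀ b ∈ B, b < R)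
    (hBK : B.card = KK) (hs : Sepd R B β) [DecidablePred fun h => Mono (vv R β h) B] :
    ((range MM).powerset.filter fun h => Mono (vv R β h) B).card ≤
      (MM * (KK + 1)) * (2 * 2 ^ (MM - KK)) := by
  classical
  set P : Finset (Finset ℕ) := ((range MM ×ˢ insertNone B).image
    fun p => B.image (pat R β p.1 p.2)).filter fun S => S.card = KK ∧ S ⊆ range MM with hP
  have hPc : P.card ≤ MM * (KK + 1) := by
    refine (card_filter_le _ _).trans (card_image_le.trans ?_)
    rw [card_product, card_range, card_insertNone, hBK]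
  have hsub : ((range MM).powerset.filter fun h => Mono (vv R β h) B) ⊆
      P.biUnion fun S => (range MM).powerset.filter fun h => S ⊆ h ∨ Disjoint S h := by
    intro h hh
    rw [mem_filter] at hh
    obtain ⟨hh1, t, c, hc⟩ := hh
    obtain ⟨τ, hτ, o, ho, hpat⟩ := cell_pat (β := β) hR B t
    rw [mem_biUnion]
    have himg : B.image (pat R β τ o) = B.image (fun b => cell R β (t + b)) := by
      apply image_congr
      intro b hb
      exact (hpat b hb).symm
    refine ⟨B.image (pat R β τ o), ?_, ?_⟩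
    · rw [hP, mem_filter]
      refine ⟨mem_image.2 ⟨(τ, o), mem_product.2 ⟨mem_range.2 hτ, ho⟩, rfl⟩, ?_, ?_⟩
      · rw [himg, card_image_of_injOn, hBK]
        intro b hb b' hb' hbb'
        by_contra hne
        rcases lt_or_gt_of_ne hne with hlt | hlt
        · exact cell_ne hB hs t hb hb' hlt hbb'
        · exact cell_ne hB hs t hb' hb hlt hbb'.symm
      · rw [himg]
        intro x hx
        rw [mem_image] at hx
        obtain ⟨b, -, rfl⟩ := hx
        rw [mem_range]
        unfold cell
        rw [Nat.mod_mul_right_div_self]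
        exact Nat.mod_lt _ MM_pos
    · rw [mem_filter]
      refine ⟨hh1, ?_⟩
      rw [himg]
      cases c with
      | true =>
        left
        intro x hx
        rw [mem_image] at hx
        obtain ⟨b, hb, rfl⟩ := hx
        exact of_decide_eq_true (hc b hb)
      | false =>
        right
        rw [Finset.disjoint_left]
        intro x hx
        rw [mem_image] at hx
        obtain ⟨b, hb, rfl⟩ := hx
        exact of_decide_eq_false (hc b hb)
  refine (card_le_card hsub).trans (card_biUnion_le.trans ?_)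
  refine (sum_le_card_nsmul _ _ (2 * 2 ^ (MM - KK)) fun S hS => ?_).trans ?_
  · rw [hP, mem_filter] at hS
    have := card_mono_pattern hS.2.2
    rw [hS.2.1] at this
    exact this
  · rw [smul_eq_mul]
    exact Nat.mul_le_mul_right _ hPc

theorem card_not_sepd {R : ℕ} {B : Finset ℕ} (hBK : B.card = KK)
    [DecidablePred fun β => ¬ Sepd R B β] :
    ((range (R * MM)).filter fun β => ¬ Sepd R B β).card ≤ (KK * KK) * (6 * R) := by
  classical
  have hsub : ((range (R * MM)).filter fun β => ¬ Sepd R B β) ⊆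
      ((B ×ˢ B).filter fun q => q.1 < q.2 ∧ q.2 - q.1 < R).biUnion fun q =>
        (range (R * MM)).filter fun β => Close R (q.2 - q.1) β := by
    intro β hβ
    rw [mem_filter] at hβ
    obtain ⟨hβ1, hβ2⟩ := hβ
    unfold Sepd at hβ2
    push Not at hβ2
    obtain ⟨b, hb, d, hd, hd0, hbd, hc⟩ := hβ2
    rw [mem_biUnion]
    refine ⟨(b, b + d), ?_, ?_⟩
    · rw [mem_filter, mem_product]
      rw [Finset.mem_range] at hd
      refine ⟨⟨hb, hbd⟩, ?_, ?_⟩
      · show b < b + d
        omega
      · show b + d - b < R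
        omega
    · rw [mem_filter]
      refine ⟨hβ1, ?_⟩
      show Close R (b + d - b) β
      rw [Nat.add_sub_cancel_left]
      exact hc
  refine (card_le_card hsub).trans (card_biUnion_le.trans ?_)
  refine (sum_le_card_nsmul _ _ (6 * R) fun q hq => ?_).trans ?_
  · rw [mem_filter] at hq
    exact card_close (by omega) (by omega)
  · rw [smul_eq_mul]
    apply Nat.mul_le_mul_right
    refine (card_filter_le _ _).trans ?_
    rw [card_product, hBK]

/-- The bound for the number of bad pairs. -/
theorem card_bad {R : ℕ} (hR : 0 < R) {B : Finset ℕ} (hB : ∀ b ∈ B, b < R)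
    (hBK : B.card = KK) [DecidablePred fun q : ℕ × Finset ℕ => Mono (vv R q.1 q.2) B] :
    4 * ((range (R * MM) ×ˢ (range MM).powerset).filter
      fun q : ℕ × Finset ℕ => Mono (vv R q.1 q.2) B).card ≤ R * MM * 2 ^ MM := by
  classical
  set Q := R * MM with hQ
  set N1 := (range Q).filter fun β => ¬ Sepd R B β with hN1
  have hsub : ((range Q ×ˢ (range MM).powerset).filter
      fun q : ℕ × Finset ℕ => Mono (vv R q.1 q.2) B) ⊆
      (N1 ×ˢ (range MM).powerset) ∪
        ((range Q).filter fun β => Sepd R B β).biUnion fun β =>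
          ((range MM).powerset.filter fun h => Mono (vv R β h) B).image fun h => (β, h) := by
    rintro ⟨β, h⟩ hq
    rw [mem_filter, mem_product] at hq
    obtain ⟨⟨h1, h2⟩, h3⟩ := hq
    rw [mem_union]
    by_cases hs : Sepd R B β
    · right
      rw [mem_biUnion]
      refine ⟨β, ?_, ?_⟩
      · rw [mem_filter]; exact ⟨h1, hs⟩
      · rw [mem_image]
        refine ⟨h, ?_, rfl⟩
        rw [mem_filter]; exact ⟨h2, h3⟩
    · left
      rw [mem_product]
      refine ⟨?_, h2⟩
      rw [hN1, mem_filter]; exact ⟨h1, hs⟩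
  have hc1 : (N1 ×ˢ (range MM).powerset).card ≤ (KK * KK) * (6 * R) * 2 ^ MM := by
    rw [card_product, card_powerset, card_range]
    exact Nat.mul_le_mul_right _ (card_not_sepd hBK)
  have hc2 : (((range Q).filter fun β => Sepd R B β).biUnion fun β =>
      ((range MM).powerset.filter fun h => Mono (vv R β h) B).image fun h => (β, h)).card ≤
      Q * ((MM * (KK + 1)) * (2 * 2 ^ (MM - KK))) := by
    refine card_biUnion_le.trans ?_
    refine (sum_le_card_nsmul _ _ ((MM * (KK + 1)) * (2 * 2 ^ (MM - KK))) fun β hβ => ?_).trans ?_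
    · rw [mem_filter] at hβ
      exact card_image_le.trans (card_bad_h hR hB hBK hβ.2)
    · rw [smul_eq_mul]
      apply Nat.mul_le_mul_right
      refine (card_filter_le _ _).trans ?_
      rw [card_range]
  have hKM : KK ≤ MM := by rw [MM_eq, KK_eq]; norm_num
  have h2M : (2 : ℕ) ^ MM = 2 ^ KK * 2 ^ (MM - KK) := by
    rw [← pow_add, Nat.add_sub_of_le hKM]
  have hK2 : 16 * (MM * (KK + 1)) ≤ 2 ^ KK := by rw [MM_eq, KK_eq]; norm_num
  have hM8 : 48 * (KK * KK) ≤ MM := by rw [MM_eq, KK_eq]
  have key1 : 8 * ((KK * KK) * (6 * R) * 2 ^ MM) ≤ Q * 2 ^ MM := by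
    rw [← mul_assoc]
    apply Nat.mul_le_mul_right
    rw [hQ]
    calc 8 * ((KK * KK) * (6 * R)) = (48 * (KK * KK)) * R := by ring
      _ ≤ MM * R := Nat.mul_le_mul_right _ hM8
      _ = R * MM := mul_comm _ _
  have key2 : 8 * (Q * ((MM * (KK + 1)) * (2 * 2 ^ (MM - KK)))) ≤ Q * 2 ^ MM := by
    rw [h2M]
    calc 8 * (Q * ((MM * (KK + 1)) * (2 * 2 ^ (MM - KK))))
        = Q * ((16 * (MM * (KK + 1))) * 2 ^ (MM - KK)) := by ring
      _ ≤ Q * (2 ^ KK * 2 ^ (MM - KK)) :=
        Nat.mul_le_mul_left _ (Nat.mul_le_mul_right _ hK2)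
  have h3 := (card_le_card hsub).trans (card_union_le _ _)
  generalize ((range Q ×ˢ (range MM).powerset).filter
      fun q : ℕ × Finset ℕ => Mono (vv R q.1 q.2) B).card = a at *
  generalize (KK * KK) * (6 * R) * 2 ^ MM = b at *
  generalize Q * ((MM * (KK + 1)) * (2 * 2 ^ (MM - KK))) = c at *
  generalize Q * 2 ^ MM = d at *
  omega

/-- **The rotation lemma.** -/
theorem exists_rotation {ι : Type*} (Ω : Finset ι) (B : ι → Finset ℕ) {R : ℕ} (hR : 0 < R)
    (hB : ∀ i ∈ Ω, ∀ b ∈ B i, b < R) (hBK : ∀ i ∈ Ω, (B i).card = KK)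
    (hdec : ∀ v : ℕ → Bool, DecidablePred fun i => Mono v (B i)) :
    ∃ (β : ℕ) (h : Finset ℕ), 4 * (@Finset.filter _ (fun i => Mono (vv R β h) (B i))
      (hdec _) Ω).card ≤ Ω.card := by
  classical
  by_contra hcon
  push Not at hcon
  set P := range (R * MM) ×ˢ (range MM).powerset with hP
  have hPc : P.card = R * MM * 2 ^ MM := by
    rw [hP, card_product, card_powerset, card_range, card_range]
  have hPpos : 0 < P.card := by
    rw [hPc]
    exact Nat.mul_pos (Nat.mul_pos hR MM_pos) (by positivity)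
  have h1 : ∑ q ∈ P, (Ω.filter fun i => Mono (vv R q.1 q.2) (B i)).card =
      ∑ i ∈ Ω, (P.filter fun q : ℕ × Finset ℕ => Mono (vv R q.1 q.2) (B i)).card := by
    simp only [card_filter]
    exact sum_comm
  have h2 : P.card * Ω.card < ∑ q ∈ P, 4 * (Ω.filter fun i => Mono (vv R q.1 q.2) (B i)).card := by
    have : ∑ _q ∈ P, Ω.card < ∑ q ∈ P, 4 * (Ω.filter fun i => Mono (vv R q.1 q.2) (B i)).card := by
      apply sum_lt_sum_of_nonempty (card_pos.1 hPpos)
      intro q _
      have := hcon q.1 q.2
      convert this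
    rwa [sum_const, smul_eq_mul] at this
  rw [← mul_sum, h1, mul_sum] at h2
  have h3 : ∑ i ∈ Ω, 4 * (P.filter fun q : ℕ × Finset ℕ => Mono (vv R q.1 q.2) (B i)).card ≤
      ∑ _i ∈ Ω, P.card := by
    apply sum_le_sum
    intro i hi
    rw [hPc]
    exact card_bad hR (hB i hi) (hBK i hi)
  rw [sum_const, smul_eq_mul, mul_comm] at h3
  omega

end Pool.Agent.R623.HTR
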